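import Pool.Agent.Lib.OrlovRel.Prim

/-!
# Assembly of the isomorphisms of primitive parts
-/

set_option autoImplicit false

open scoped TensorProduct ComplexOrder

namespace Pool.Agent.Lib.OrlovRel

open Pool.Agent.Lib.OrlovSig Pool.Agent.Lib.OrlovNef Pool.Agent.Lib.OrlovChow HL

variable {d : ℕ} {V V' : Type*} [AddCommGroup V] [Module ℚ V] [AddCommGroup V'] [Module ℚ V']

/-- Equivalences in all degrees can be glued to an isomorphism of the ring. -/
theorem exists_equiv_of_mvn {e : ℕ} {U U' : Type*} [AddCommGroup U] [Module ℚ U]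
    [AddCommGroup U'] [Module ℚ U'] [FiniteDimensional ℚ U] [FiniteDimensional ℚ U']
    {Y : HL e U} {Y' : HL e U'} {S : Subalgebra ℚ (Module.End ℚ (U × U'))}
    (h : Motivic Y Y' S) (hi : ∀ j ≤ 2 * e, MvN (h.Q₁.π j) (h.Q₂.π j)) :
    ∃ F : U ≃ₗ[ℚ] U', b21 F.toLinearMap ∈ S ∧ b12 F.symm.toLinearMap ∈ S ∧
      (∀ j x, F (Y.pr j x) = Y'.pr j (F x)) ∧
      ∀ p q x, F.toLinearMap.baseChange ℂ (Y.hp p q x) =
        Y'.hp p q (F.toLinearMap.baseChange ℂ x) := by
  have h1 : ∀ j : ℕ, ∃ (f : U →ₗ[ℚ] U') (g : U' →ₗ[ℚ] U), b21 f ∈ S ∧ b12 g ∈ S ∧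
      g ∘ₗ f = Y.pr j ∧ f ∘ₗ g = Y'.pr j ∧ f ∘ₗ Y.pr j = f ∧ Y'.pr j ∘ₗ f = f ∧
      g ∘ₗ Y'.pr j = g ∧ Y.pr j ∘ₗ g = g := by
    intro j
    rcases Nat.lt_or_ge (2 * e) j with hj | hj
    · refine ⟨0, 0, ?_, ?_, ?_⟩
      · have e1 : b21 (0 : U →ₗ[ℚ] U') = 0 := rfl
        rw [e1]
        exact Subalgebra.zero_mem _
      · have e1 : b12 (0 : U' →ₗ[ℚ] U) = 0 := rfl
        rw [e1]
        exact Subalgebra.zero_mem _
      · rw [Y.pr_top j hj, Y'.pr_top j hj]
        simp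
    · exact Motivic.maps_of_mvn (Motivic.coe_Q₁_π h j) (Motivic.coe_Q₂_π h j) (hi j hj)
  choose f g hf hg ha hb hc hc' hk hk' using h1
  have hpr : ∀ a b, Y.pr a ∘ₗ Y.pr b = if a = b then Y.pr a else 0 := by
    intro a b
    split_ifs with hab
    · subst hab; exact Y.pr_self a
    · exact Y.pr_ne a b hab
  have hpr' : ∀ a b, Y'.pr a ∘ₗ Y'.pr b = if a = b then Y'.pr a else 0 := by
    intro a b
    split_ifs with hab
    · subst hab; exact Y'.pr_self a
    · exact Y'.pr_ne a b hab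
  have m1 := glue (n := 2 * e + 1) Y'.pr_sum hpr hb hc hk'
  have m2 := glue (n := 2 * e + 1) Y.pr_sum hpr' ha hk hc'
  have b21_sum : ∀ s : Finset ℕ, b21 (∑ a ∈ s, f a) ∈ S := by
    intro s
    induction s using Finset.induction_on with
    | empty =>
      rw [Finset.sum_empty]
      have e1 : b21 (0 : U →ₗ[ℚ] U') = 0 := rfl
      rw [e1]
      exact Subalgebra.zero_mem _
    | insert a s has ih =>
      rw [Finset.sum_insert has, b21_add]
      exact Subalgebra.add_mem _ (hf a) ih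
  have b12_sum : ∀ s : Finset ℕ, b12 (∑ a ∈ s, g a) ∈ S := by
    intro s
    induction s using Finset.induction_on with
    | empty =>
      rw [Finset.sum_empty]
      have e1 : b12 (0 : U' →ₗ[ℚ] U) = 0 := rfl
      rw [e1]
      exact Subalgebra.zero_mem _
    | insert a s has ih =>
      rw [Finset.sum_insert has, b12_add]
      exact Subalgebra.add_mem _ (hg a) ih
  have hfj : ∀ a j x, f a (Y.pr j x) = if a = j then f j x else 0 := by
    intro a j x
    have h2 : f a (Y.pr a (Y.pr j x)) = f a (Y.pr j x) := LinearMap.congr_fun (hc a) _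
    rw [← h2]
    have h3 := LinearMap.congr_fun (hpr a j) x
    rw [LinearMap.comp_apply] at h3
    rw [h3]
    split_ifs with haj
    · subst haj
      exact LinearMap.congr_fun (hc a) x
    · rw [LinearMap.zero_apply, map_zero]
  have hfj' : ∀ a j x, Y'.pr j (f a x) = if a = j then f j x else 0 := by
    intro a j x
    have h2 : Y'.pr a (f a x) = f a x := LinearMap.congr_fun (hc' a) x
    rw [← h2]
    have h3 := LinearMap.congr_fun (hpr' j a) (f a x)
    rw [LinearMap.comp_apply] at h3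
    rw [h3]
    split_ifs with h4 h5 h5
    · subst h4
      exact LinearMap.congr_fun (hc' j) x
    · exact absurd h4.symm h5
    · exact absurd h5.symm h4
    · rfl
  refine ⟨LinearEquiv.ofLinearMap _ _ m1 m2, b21_sum _, b12_sum _, fun j x => ?_,
    fun p q x => ?_⟩
  · change (∑ a ∈ Finset.range (2 * e + 1), f a) (Y.pr j x) =
      Y'.pr j ((∑ a ∈ Finset.range (2 * e + 1), f a) x)
    rw [LinearMap.sum_apply, LinearMap.sum_apply, map_sum]
    exact Finset.sum_congr rfl (fun a _ => by rw [hfj, hfj'])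
  · have h1 : (LinearEquiv.ofLinearMap _ _ m1 m2).toLinearMap =
        ∑ a ∈ Finset.range (2 * e + 1), f a := rfl
    rw [h1, baseChange_sum', LinearMap.sum_apply, LinearMap.sum_apply, map_sum]
    refine Finset.sum_congr rfl (fun j _ => ?_)
    by_cases hj : p + q = j
    · exact Y.hp_of_isHodge Y' (f j) (h.isHodge₂₁ (hf j)) j (hc j) (hc' j) p q hj x
    · have e1 : (f j).baseChange ℂ (Y.hp p q x) = 0 := by
        rw [← hc j, LinearMap.baseChange_comp, LinearMap.comp_apply, Y.prC_hp, if_neg hj, map_zero]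
      have e2 : Y'.hp p q ((f j).baseChange ℂ x) = 0 := by
        rw [← hc' j, LinearMap.baseChange_comp, LinearMap.comp_apply, Y'.hp_prC, if_neg hj]
      rw [e1, e2]

section

variable {X : HL d V} {X' : HL d V'} {S : Subalgebra ℚ (Module.End ℚ (V × V'))}

/-- The strands of the primitive decomposition have a common left inverse in the algebra. -/
theorem exists_dec (A : Subalgebra ℚ (Module.End ℚ V)) (hA : Reg X A) {P : X.Nef}
    (hP : P.op ∈ A) {g : ℕ → Module.End ℚ V} (hg : Fam P g) (hgA : ∀ m, g m ∈ A) :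
    ∃ ρ : Idx d → Module.End ℚ V, (∀ i, ρ i ∈ A) ∧
      ∀ x, ∑ i : Idx d, (P.op ^ (i.2 : ℕ)) (g i.1 (ρ i x)) = x := by
  classical
  obtain ⟨e, a, he, -, h2⟩ := Reg.exists_unit (R := A) (fun x => by
    obtain ⟨z, hz, e⟩ := hA.reg x.1 x.2
    exact ⟨⟨z, hz⟩, Subtype.ext e⟩) (Finset.univ : Finset (Idx d))
    (fun i => (⟨P.op ^ (i.2 : ℕ) * g i.1,
      Subalgebra.mul_mem _ (Subalgebra.pow_mem _ hP _) (hgA _)⟩ : A))
  refine ⟨fun i => (a i : Module.End ℚ V), fun i => (a i).2, fun x => ?_⟩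
  -- `e` is the identity
  have h3 : ∀ i : Idx d, ∀ y : V, (e : Module.End ℚ V) ((P.op ^ (i.2 : ℕ)) (g i.1 y)) =
      (P.op ^ (i.2 : ℕ)) (g i.1 y) := by
    intro i y
    have h4 := congrArg Subtype.val (h2 i (Finset.mem_univ i))
    exact LinearMap.congr_fun h4 y
  have h5 : (e : Module.End ℚ V) x = x := by
    obtain ⟨w, hw⟩ := hg.total_surjective x
    rw [← hw, total_apply, map_sum]
    refine Finset.sum_congr rfl (fun i _ => ?_)
    have h6 := h3 i (inc (g i.1) (w i))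
    rwa [(hg i.1).g_inc] at h6
  have h6 : (e : Module.End ℚ V) = ∑ i : Idx d, (P.op ^ (i.2 : ℕ) * g i.1) * (a i).1 := by
    rw [he, AddSubmonoidClass.coe_finsetSum]
    rfl
  conv_rhs => rw [← h5, h6, LinearMap.sum_apply]
  rfl

variable [FiniteDimensional ℚ V] [FiniteDimensional ℚ V']

omit [FiniteDimensional ℚ V] [FiniteDimensional ℚ V'] in
/-- The assembled isomorphism is in the ring. -/
theorem assemble_mem (h : Motivic X X' S) {P : X.Nef} {P' : X'.Nef} (hP : b11 V' P.op ∈ S)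
    (hP' : b22 V P'.op ∈ S) {g : ℕ → Module.End ℚ V} {g' : ℕ → Module.End ℚ V'}
    (hf : FamS S P P' g g')
    (F : ∀ m : Fin (d + 1), LinearMap.range (g m) ≃ₗ[ℚ] LinearMap.range (g' m))
    (hF : ∀ m : Fin (d + 1), b21 (inc (g' m) ∘ₗ (F m).toLinearMap ∘ₗ prj (g m)) ∈ S) :
    b21 (Fam.assemble (hf.proj : Fam P g) (hf.proj' : Fam P' g') F).toLinearMap ∈ S := by
  obtain ⟨ρ, hρ, hρ'⟩ := exists_dec h.alg₁ h.reg_alg₁ (P := P) hP (hf.proj : Fam P g) hf.mem
  set φ := (Fam.assemble (hf.proj : Fam P g) (hf.proj' : Fam P' g') F).toLinearMap with hφ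
  have e : b21 φ = ∑ i : Idx d, b22 V (P'.op ^ (i.2 : ℕ)) *
      b21 (inc (g' i.1) ∘ₗ (F i.1).toLinearMap ∘ₗ prj (g i.1)) * b11 V' (ρ i) := by
    refine LinearMap.ext (fun x => ?_)
    rw [b21_apply, LinearMap.sum_apply]
    have h1 : φ x.1 = ∑ i : Idx d, (P'.op ^ (i.2 : ℕ)) (inc (g' i.1) (F i.1 (prj (g i.1)
        (ρ i x.1)))) := by
      conv_lhs => rw [← hρ' x.1]
      rw [map_sum]
      refine Finset.sum_congr rfl (fun i _ => ?_)
      have h2 := LinearMap.congr_fun (Fam.assemble_strand (hf.proj : Fam P g)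
        (hf.proj' : Fam P' g') F i) (prj (g i.1) (ρ i x.1))
      rw [LinearMap.comp_apply, LinearMap.comp_apply, ← hφ] at h2
      exact h2
    rw [h1]
    refine Prod.ext ?_ ?_
    · rw [Prod.fst_sum]
      exact (Finset.sum_eq_zero (fun i _ => rfl)).symm
    · rw [Prod.snd_sum]
      rfl
  rw [e]
  refine Subalgebra.sum_mem _ (fun i _ => ?_)
  exact Subalgebra.mul_mem _ (Subalgebra.mul_mem _ (h.pow₂ hP' _) (hF i.1)) (hρ i)

omit [FiniteDimensional ℚ V] [FiniteDimensional ℚ V'] in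
theorem assemble_mem' (h : Motivic X X' S) {P : X.Nef} {P' : X'.Nef} (hP : b11 V' P.op ∈ S)
    (hP' : b22 V P'.op ∈ S) {g : ℕ → Module.End ℚ V} {g' : ℕ → Module.End ℚ V'}
    (hf : FamS S P P' g g')
    (F : ∀ m : Fin (d + 1), LinearMap.range (g m) ≃ₗ[ℚ] LinearMap.range (g' m))
    (hF : ∀ m : Fin (d + 1), b12 (inc (g m) ∘ₗ (F m).symm.toLinearMap ∘ₗ prj (g' m)) ∈ S) :
    b12 (Fam.assemble (hf.proj : Fam P g) (hf.proj' : Fam P' g') F).symm.toLinearMap ∈ S := by
  obtain ⟨ρ, hρ, hρ'⟩ := exists_dec h.alg₂ h.reg_alg₂ (P := P') hP' (hf.proj' : Fam P' g') hf.mem'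
  have hsymm : (Fam.assemble (hf.proj : Fam P g) (hf.proj' : Fam P' g') F).symm =
      Fam.assemble (hf.proj' : Fam P' g') (hf.proj : Fam P g) (fun m => (F m).symm) := rfl
  rw [hsymm]
  set φ := (Fam.assemble (hf.proj' : Fam P' g') (hf.proj : Fam P g)
    (fun m => (F m).symm)).toLinearMap with hφ
  have e : b12 φ = ∑ i : Idx d, b11 V' (P.op ^ (i.2 : ℕ)) *
      b12 (inc (g i.1) ∘ₗ (F i.1).symm.toLinearMap ∘ₗ prj (g' i.1)) * b22 V (ρ i) := by
    refine LinearMap.ext (fun x => ?_)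
    rw [b12_apply, LinearMap.sum_apply]
    have h1 : φ x.2 = ∑ i : Idx d, (P.op ^ (i.2 : ℕ)) (inc (g i.1) ((F i.1).symm (prj (g' i.1)
        (ρ i x.2)))) := by
      conv_lhs => rw [← hρ' x.2]
      rw [map_sum]
      refine Finset.sum_congr rfl (fun i _ => ?_)
      have h2 := LinearMap.congr_fun (Fam.assemble_strand (hf.proj' : Fam P' g')
        (hf.proj : Fam P g) (fun m => (F m).symm) i) (prj (g' i.1) (ρ i x.2))
      rw [LinearMap.comp_apply, LinearMap.comp_apply, ← hφ] at h2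
      exact h2
    rw [h1]
    refine Prod.ext ?_ ?_
    · rw [Prod.fst_sum]
      rfl
    · rw [Prod.snd_sum]
      exact (Finset.sum_eq_zero (fun i _ => rfl)).symm
  rw [e]
  refine Subalgebra.sum_mem _ (fun i _ => ?_)
  exact Subalgebra.mul_mem _ (Subalgebra.mul_mem _ (h.pow₁ hP _) (hF i.1)) (hρ i)

omit [FiniteDimensional ℚ V] [FiniteDimensional ℚ V'] in
/-- The assembled isomorphism commutes with the nef classes. -/
theorem assemble_op {P : X.Nef} {P' : X'.Nef} {g : ℕ → Module.End ℚ V}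
    {g' : ℕ → Module.End ℚ V'} (hg : Fam P g) (hg' : Fam P' g')
    (F : ∀ m : Fin (d + 1), LinearMap.range (g m) ≃ₗ[ℚ] LinearMap.range (g' m)) (x : V) :
    hg.assemble hg' F (P.op x) = P'.op (hg.assemble hg' F x) := by
  have key : ∀ (i : Idx d) (k : ℕ) (w : LinearMap.range (g i.1)),
      hg.assemble hg' F ((P.op ^ k) (inc (g i.1) w)) = (P'.op ^ k) (inc (g' i.1) (F i.1 w)) := by
    rintro ⟨m, l⟩ k w
    dsimp only at w ⊢
    rcases Nat.lt_or_ge (m : ℕ) k with hk | hk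
    · rw [hg.pow_kill m k hk, hg'.pow_kill m k hk, map_zero]
    · have h1 := LinearMap.congr_fun (hg.assemble_strand hg' F
        (⟨m, ⟨k, Nat.lt_succ_of_le hk⟩⟩ : Idx d)) w
      exact h1
  obtain ⟨w, rfl⟩ := hg.total_surjective x
  rw [total_apply, map_sum, map_sum, map_sum, map_sum]
  refine Finset.sum_congr rfl (fun i _ => ?_)
  have h1 := key i ((i.2 : ℕ) + 1) (w i)
  rw [pow_succ', pow_succ', Module.End.mul_apply, Module.End.mul_apply, ← key i] at h1
  exact h1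

/-- If all graded pieces of all primitive parts are equivalent, there is an isomorphism of the
ring that respects the degrees and the nef classes. -/
theorem Motivic.exists_iso (h : Motivic X X' S) {P : X.Nef} {P' : X'.Nef}
    (hP : b11 V' P.op ∈ S) (hP' : b22 V P'.op ∈ S) {g : ℕ → Module.End ℚ V}
    {g' : ℕ → Module.End ℚ V'} (hf : FamS S P P' g g')
    (hall : ∀ (m : ℕ) (hm : m ≤ d), ∀ j ≤ 2 * (d - m), MvN ((h.corner hm (hf.proj m) (hf.proj' m)
      (hf.mem m) (hf.mem' m)).Q₁.π j) ((h.corner hm (hf.proj m) (hf.proj' m) (hf.mem m)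
      (hf.mem' m)).Q₂.π j)) :
    ∃ F : V ≃ₗ[ℚ] V', b21 F.toLinearMap ∈ S ∧ b12 F.symm.toLinearMap ∈ S ∧
      (∀ j x, F (X.pr j x) = X'.pr j (F x)) ∧ ∀ x, F (P.op x) = P'.op (F x) := by
  choose F hF1 hF2 _ hF4 using fun (m : Fin (d + 1)) => exists_equiv_of_mvn
    (h.corner (Nat.lt_succ_iff.1 m.2) (hf.proj m) (hf.proj' m) (hf.mem m) (hf.mem' m))
    (hall m (Nat.lt_succ_iff.1 m.2))
  refine ⟨Fam.assemble (hf.proj : Fam P g) (hf.proj' : Fam P' g') F,
    assemble_mem h hP hP' hf F (fun m => mem_corner₂₁.1 (hF1 m)),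
    assemble_mem' h hP hP' hf F (fun m => mem_corner₁₂.1 (hF2 m)), fun j x => ?_,
    assemble_op hf.proj hf.proj' F⟩
  have hhp := fun p q ξ => Fam.assemble_hp (hf.proj : Fam P g) (hf.proj' : Fam P' g') F hF4 p q ξ
  set φ := Fam.assemble (hf.proj : Fam P g) (hf.proj' : Fam P' g') F with hφ
  have hpr : φ.toLinearMap ∘ₗ X.pr j = X'.pr j ∘ₗ φ.toLinearMap := by
    apply baseChange_inj
    rw [LinearMap.baseChange_comp, LinearMap.baseChange_comp]
    apply LinearMap.ext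
    intro ξ
    rw [LinearMap.comp_apply, LinearMap.comp_apply, ← X.hp_sum j, ← X'.hp_sum j,
      LinearMap.sum_apply, LinearMap.sum_apply, map_sum]
    exact Finset.sum_congr rfl (fun p _ => hhp _ _ _)
  exact LinearMap.congr_fun hpr x

end

end Pool.Agent.Lib.OrlovRel
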