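import Pool.Agent.Lib.OrlovRel.Motivic

/-!
# The abstract theorem in a motivated ring
-/

set_option autoImplicit false

open scoped TensorProduct ComplexOrder

namespace Pool.Agent.Lib.OrlovRel

open Pool.Agent.Lib.OrlovSig Pool.Agent.Lib.OrlovNef Pool.Agent.Lib.OrlovChow HL

namespace PkgR

variable {R W : Type*} [Ring R] [Algebra ℚ R] [AddCommGroup W] [Module R W]
  {q : W →+ W →+ ℝ} {d : ℕ}

/-- The abstract theorem in all degrees: a known degree per parity is only needed where the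
absence of primitive classes is used. -/
theorem core3 [Module.Finite ℚ R] [FaithfulSMul R W] (P P' : Pkg R W q d)
    (hsymm : ∀ x y, q x y = q y x)
    (hreg : ∀ x : R, ∃ z : R, x * z * x = x) (u v : R) (hvu : v * u = P.ε) (huv : u * v = P'.ε)
    (huE : u * P.E = P'.E * u) (hvE : v * P'.E = P.E * v)
    (hiso : ∀ x, P.E • x = x → q (P'.DE • (u • x)) (u • x) = q (P.DE • x) x)
    (K : Set ℕ) (hK : ∀ i ∈ K, MvN (P.π i) (P'.π i))
    (h : ∀ e < 2, (∀ i ≤ d, ∀ j ≤ d, i % 2 = e → j % 2 = e → block d i = block d j →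
        i ∉ K → j ∉ K → i = j) ∨
      (e ∈ K ∧ ∀ j, 1 < j → j < d → j % 2 = e → ∀ x : W, P.π j • x = x →
        P.L ^ (d - j + 1) • x = 0 → x = 0)) :
    ∀ j ≤ 2 * d, MvN (P.π j) (P'.π j) := by
  obtain ⟨c1, c2, c3⟩ := P.core P' hsymm hreg u v hvu huv huE hvE hiso
  have key : ∀ j ≤ d, MvN (P.π j) (P'.π j) := by
    intro j hj
    rcases h (j % 2) (Nat.mod_lt _ (by norm_num)) with ha | ⟨hb1, hb⟩
    · by_cases hjK : j ∈ K
      · exact hK j hjK
      · refine c3 j hj (fun i hi hij hbl => ?_)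
        by_cases hiK : i ∈ K
        · exact hK i hiK
        · exact absurd (ha i hi j hj (block_parity hi hj hbl) rfl hbl hiK hjK) hij
    · have hlt : ∀ i, i < d → i % 2 = j % 2 → MvN (P.π i) (P'.π i) := by
        intro i hi hij
        refine exists_equiv_of_tr_eq hreg _ _ (P.π_self i) (P'.π_self i) (fun p hp => ?_)
        refine squeeze (fun j => tr p (P.π j)) (fun j => tr p (P'.π j)) d (j % 2)
          (Nat.mod_lt _ (by norm_num)) ((hK _ hb1).tr_eq p)
          (fun j hj => Pkg'.tr_mono P' p hp hj) ?_ ?_ i hi hij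
        · intro k hk1 hk2 hk3
          have h1 := Pkg'.tr_stable P p (j := k - 2) (by omega) (by
            rw [show k - 2 + 2 = k by omega]
            exact hb k hk1 hk2 hk3)
          rw [show k - 2 + 2 = k by omega] at h1
          exact h1
        · intro a
          have h1 := (c1 a).tr_eq p
          rw [P.tr_B, P'.tr_B] at h1
          exact h1
      rcases Nat.lt_or_ge j d with h1 | h1
      · exact hlt j h1 rfl
      · have h2 : j = d := le_antisymm hj h1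
        refine c3 j hj (fun i hi hij hbl => hlt i (by omega) (block_parity hi hj hbl))
  intro j hj
  rcases Nat.lt_or_ge d j with h1 | h1
  · have h2 := c2 (2 * d - j) (by omega) (key (2 * d - j) (by omega))
    rwa [show 2 * d - (2 * d - j) = j by omega] at h2
  · exact key j h1

end PkgR

variable {d : ℕ} {V V' : Type*} [AddCommGroup V] [Module ℚ V] [AddCommGroup V'] [Module ℚ V']

namespace Motivic

variable {X : HL d V} {X' : HL d V'} {S : Subalgebra ℚ (Module.End ℚ (V × V'))}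

instance (S : Subalgebra ℚ (Module.End ℚ (V × V'))) : FaithfulSMul S (V × V') where
  eq_of_smul_eq_smul := by
    intro r s h
    exact Subtype.ext (LinearMap.ext h)

/-- The subalgebra of the endomorphisms of the first factor in the ring. -/
def alg₁ (h : Motivic X X' S) : Subalgebra ℚ (Module.End ℚ V) where
  carrier := {f | b11 V' f ∈ S}
  mul_mem' := fun {f g} hf hg => mul₁ hf hg
  add_mem' := fun {f g} hf hg => by
    change b11 V' (f + g) ∈ S
    rw [b11_add]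
    exact Subalgebra.add_mem _ hf hg
  algebraMap_mem' := fun r => by
    have e : algebraMap ℚ (Module.End ℚ V) r = r • LinearMap.id := by
      ext x
      simp [Module.algebraMap_end_apply]
    change b11 V' (algebraMap ℚ (Module.End ℚ V) r) ∈ S
    rw [e, b11_smul]
    exact Subalgebra.smul_mem _ h.id₁ r

/-- The subalgebra of the endomorphisms of the second factor in the ring. -/
def alg₂ (h : Motivic X X' S) : Subalgebra ℚ (Module.End ℚ V') where
  carrier := {f | b22 V f ∈ S}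
  mul_mem' := fun {f g} hf hg => mul₂ hf hg
  add_mem' := fun {f g} hf hg => by
    change b22 V (f + g) ∈ S
    rw [b22_add]
    exact Subalgebra.add_mem _ hf hg
  algebraMap_mem' := fun r => by
    have e : algebraMap ℚ (Module.End ℚ V') r = r • LinearMap.id := by
      ext x
      simp [Module.algebraMap_end_apply]
    change b22 V (algebraMap ℚ (Module.End ℚ V') r) ∈ S
    rw [e, b22_smul]
    exact Subalgebra.smul_mem _ h.id₂ r

theorem mem_alg₁ (h : Motivic X X' S) {f : Module.End ℚ V} : f ∈ h.alg₁ ↔ b11 V' f ∈ S := Iff.rfl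

theorem mem_alg₂ (h : Motivic X X' S) {f : Module.End ℚ V'} : f ∈ h.alg₂ ↔ b22 V f ∈ S := Iff.rfl

theorem adjoin₁ (h : Motivic X X' S) {f : Module.End ℚ V}
    (hf : f ∈ Algebra.adjoin ℚ {X.can ^ 2}) : b11 V' f ∈ S := by
  have h1 : Algebra.adjoin ℚ {X.can ^ 2} ≤ h.alg₁ := by
    refine Algebra.adjoin_le ?_
    intro g hg
    rw [Set.mem_singleton_iff] at hg
    rw [hg]
    exact h.pow₁ h.can₁ 2
  exact h1 hf

theorem adjoin₂ (h : Motivic X X' S) {f : Module.End ℚ V'}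
    (hf : f ∈ Algebra.adjoin ℚ {X'.can ^ 2}) : b22 V f ∈ S := by
  have h1 : Algebra.adjoin ℚ {X'.can ^ 2} ≤ h.alg₂ := by
    refine Algebra.adjoin_le ?_
    intro g hg
    rw [Set.mem_singleton_iff] at hg
    rw [hg]
    exact h.pow₂ h.can₂ 2
  exact h1 hf

/-- A Mukai isometry in the ring can be modified to an isometry for the pairing without `c₁`. -/
theorem exists_isometry (h : Motivic X X' S) (u : V ≃ₗ[ℚ] V') (hu : b21 u.toLinearMap ∈ S)
    (hu' : b12 u.symm.toLinearMap ∈ S) (hm : ∀ x y, X'.mukai (u x) (u y) = X.mukai x y) :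
    ∃ w : V ≃ₗ[ℚ] V', b21 w.toLinearMap ∈ S ∧ b12 w.symm.toLinearMap ∈ S ∧
      ∀ x, X.parE x = x → X'.qf (X'.dual (w x)) (w x) = X.qf (X.dual x) x := by
  have hH : X.IsHodge X' u.toLinearMap := h.isHodge₂₁ hu
  have hb : ∀ x, X'.qf (X'.dual (u x)) (X'.expHalf (u x)) = X.qf (X.dual x) (X.expHalf x) := by
    intro x
    exact X.qf_of_pair X' (X'.dual ∘ₗ u.toLinearMap) (X'.expHalf ∘ₗ u.toLinearMap)
      (X'.isHodge_expHalf.comp hH) X.dual X.expHalf X.isHodge_expHalf (fun x y => hm x y) x x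
  obtain ⟨r, t, hr, ht, hrr, hrt, htr⟩ := X.exists_sqrt_cosh
  obtain ⟨r', t', hr', ht', hrr', hrt', htr'⟩ := X'.exists_sqrt_cosh
  obtain ⟨r1, r2, r3⟩ := X.good_adjoin hr
  obtain ⟨t1, t2, t3⟩ := X.good_adjoin ht
  obtain ⟨r1', r2', r3'⟩ := X'.good_adjoin hr'
  let e : V ≃ₗ[ℚ] V := LinearEquiv.ofLinearMap t r htr hrt
  let e' : V' ≃ₗ[ℚ] V' := LinearEquiv.ofLinearMap r' t' hrt' htr'
  refine ⟨(e.trans u).trans e', ?_, ?_, ?_⟩
  · have h1 : b21 ((e.trans u).trans e').toLinearMap =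
        b22 V r' * (b21 u.toLinearMap * b11 V' t) := rfl
    rw [h1]
    exact Subalgebra.mul_mem _ (h.adjoin₂ hr') (Subalgebra.mul_mem _ hu (h.adjoin₁ ht))
  · have h1 : b12 ((e.trans u).trans e').symm.toLinearMap =
        b11 V' r * (b12 u.symm.toLinearMap * b22 V t') := rfl
    rw [h1]
    exact Subalgebra.mul_mem _ (h.adjoin₁ hr) (Subalgebra.mul_mem _ hu' (h.adjoin₂ ht'))
  · intro x hx
    have h : ((e.trans u).trans e') x = r' (u (t x)) := rfl
    rw [h]
    have htx : X.parE (t x) = t x := by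
      have h1 := LinearMap.congr_fun (parE_comm t1) x
      rw [LinearMap.comp_apply, LinearMap.comp_apply, hx] at h1
      exact h1
    have hutx : X'.parE (u (t x)) = u (t x) := by
      have h1 := LinearMap.congr_fun (parE_comm hH) (t x)
      rw [LinearMap.comp_apply, LinearMap.comp_apply, htx] at h1
      exact h1
    have hrtx : r (t x) = x := LinearMap.congr_fun hrt x
    rw [r3', r2', ← Module.End.mul_apply, hrr', X'.qf_dual_cosh _ hutx, hb,
      ← X.qf_dual_cosh _ htx, ← hrr, Module.End.mul_apply, ← r2, ← r3, hrtx]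

variable [FiniteDimensional ℚ V] [FiniteDimensional ℚ V']

/-- The package of the first factor. -/
noncomputable def Q₁ (h : Motivic X X' S) : Pkg S (V × V') (X.qq X') d :=
  restrict (X.pkg₁ X') S h.pr₁ h.lef₁ h.theta₁

/-- The package of the second factor. -/
noncomputable def Q₂ (h : Motivic X X' S) : Pkg S (V × V') (X.qq X') d :=
  restrict (X.pkg₂ X') S h.pr₂ h.lef₂ h.theta₂

theorem coe_Q₁_π (h : Motivic X X' S) (j : ℕ) :
    ((h.Q₁.π j : S) : Module.End ℚ (V × V')) = b11 V' (X.pr j) := rfl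

theorem coe_Q₂_π (h : Motivic X X' S) (j : ℕ) :
    ((h.Q₂.π j : S) : Module.End ℚ (V × V')) = b22 V (X'.pr j) := rfl

theorem coe_Q₁_ε (h : Motivic X X' S) :
    ((h.Q₁.ε : S) : Module.End ℚ (V × V')) = b11 V' LinearMap.id :=
  (coe_restrict_ε _ _ _ _ _).trans (X.coe_ε₁ X')

theorem coe_Q₂_ε (h : Motivic X X' S) :
    ((h.Q₂.ε : S) : Module.End ℚ (V × V')) = b22 V LinearMap.id :=
  (coe_restrict_ε _ _ _ _ _).trans (X.coe_ε₂ X')

theorem coe_Q₁_E (h : Motivic X X' S) :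
    ((h.Q₁.E : S) : Module.End ℚ (V × V')) = b11 V' X.parE :=
  (coe_restrict_E _ _ _ _ _).trans (X.coe_E₁ X')

theorem coe_Q₂_E (h : Motivic X X' S) :
    ((h.Q₂.E : S) : Module.End ℚ (V × V')) = b22 V X'.parE :=
  (coe_restrict_E _ _ _ _ _).trans (X.coe_E₂ X')

theorem coe_Q₁_DE (h : Motivic X X' S) :
    ((h.Q₁.DE : S) : Module.End ℚ (V × V')) = b11 V' X.parD :=
  (coe_restrict_DE _ _ _ _ _).trans (X.coe_DE₁ X')

theorem coe_Q₂_DE (h : Motivic X X' S) :
    ((h.Q₂.DE : S) : Module.End ℚ (V × V')) = b22 V X'.parD :=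
  (coe_restrict_DE _ _ _ _ _).trans (X.coe_DE₂ X')

theorem coe_restrict_B {A W : Type*} [Ring A] [Algebra ℚ A] [AddCommGroup W] [Module A W]
    {q : W →+ W →+ ℝ} {d : ℕ} {S : Subalgebra ℚ A} (P : Pkg S W q d) (T : Subalgebra ℚ A)
    (hπ : ∀ j, (P.π j : A) ∈ T) (hL : (P.L : A) ∈ T) (hθ : ∀ j, (P.θ j : A) ∈ T) (a : ℕ) :
    (((restrict P T hπ hL hθ).B a : T) : A) = (P.B a : A) := by
  unfold Pkg.B
  rw [AddSubmonoidClass.coe_finsetSum, AddSubmonoidClass.coe_finsetSum]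
  refine Finset.sum_congr rfl (fun i _ => ?_)
  split_ifs <;> rfl

theorem coe_Q₁_B (h : Motivic X X' S) (a : ℕ) :
    ((h.Q₁.B a : S) : Module.End ℚ (V × V')) = b11 V' (X.prBlock a) :=
  (coe_restrict_B _ _ _ _ _ a).trans (X.coe_B₁ X' a)

theorem coe_Q₂_B (h : Motivic X X' S) (a : ℕ) :
    ((h.Q₂.B a : S) : Module.End ℚ (V × V')) = b22 V (X'.prBlock a) :=
  (coe_restrict_B _ _ _ _ _ a).trans (X.coe_B₂ X' a)

/-- The hypotheses of the abstract theorem. -/
theorem exists_uv (h : Motivic X X' S) (u : V ≃ₗ[ℚ] V') (hu : b21 u.toLinearMap ∈ S)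
    (hu' : b12 u.symm.toLinearMap ∈ S) (hm : ∀ x y, X'.mukai (u x) (u y) = X.mukai x y) :
    ∃ a b : S, b * a = h.Q₁.ε ∧ a * b = h.Q₂.ε ∧ a * h.Q₁.E = h.Q₂.E * a ∧
      b * h.Q₂.E = h.Q₁.E * b ∧
      ∀ x : V × V', h.Q₁.E • x = x → X.qq X' (h.Q₂.DE • (a • x)) (a • x) =
        X.qq X' (h.Q₁.DE • x) x := by
  obtain ⟨w, hw, hw', hiso⟩ := h.exists_isometry u hu hu' hm
  have hwH : X.IsHodge X' w.toLinearMap := h.isHodge₂₁ hw
  have hwH' : X'.IsHodge X w.symm.toLinearMap := h.isHodge₁₂ hw'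
  refine ⟨⟨_, hw⟩, ⟨_, hw'⟩, ?_, ?_, ?_, ?_, ?_⟩
  · refine Subtype.ext ?_
    rw [coe_Q₁_ε]
    change b12 w.symm.toLinearMap * b21 w.toLinearMap = _
    rw [b12_mul_b21]
    congr 1
    exact LinearMap.ext (fun x => w.symm_apply_apply x)
  · refine Subtype.ext ?_
    rw [coe_Q₂_ε]
    change b21 w.toLinearMap * b12 w.symm.toLinearMap = _
    rw [b21_mul_b12]
    congr 1
    exact LinearMap.ext (fun x => w.apply_symm_apply x)
  · refine Subtype.ext ?_
    change b21 w.toLinearMap * ((h.Q₁.E : S) : Module.End ℚ (V × V')) =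
      ((h.Q₂.E : S) : Module.End ℚ (V × V')) * b21 w.toLinearMap
    rw [coe_Q₁_E, coe_Q₂_E, b21_mul_b11, b22_mul_b21, parE_comm hwH]
  · refine Subtype.ext ?_
    change b12 w.symm.toLinearMap * ((h.Q₂.E : S) : Module.End ℚ (V × V')) =
      ((h.Q₁.E : S) : Module.End ℚ (V × V')) * b12 w.symm.toLinearMap
    rw [coe_Q₁_E, coe_Q₂_E, b12_mul_b22, b11_mul_b12, parE_comm hwH']
  · intro x hx
    have hE : (h.Q₁.E • x) = (X.parE x.1, 0) := by
      change ((h.Q₁.E : S) : Module.End ℚ (V × V')) x = _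
      rw [coe_Q₁_E, b11_apply]
    have hx1 : X.parE x.1 = x.1 := congrArg Prod.fst (hE.symm.trans hx)
    have hwx : X'.parE (w x.1) = w x.1 := by
      have h1 := LinearMap.congr_fun (parE_comm hwH) x.1
      rw [LinearMap.comp_apply, LinearMap.comp_apply, hx1] at h1
      exact h1
    have e1 : ((⟨_, hw⟩ : S) • x) = (0, w x.1) := rfl
    have e2 : (h.Q₂.DE • ((0, w x.1) : V × V')) = (0, X'.dual (w x.1)) := by
      change ((h.Q₂.DE : S) : Module.End ℚ (V × V')) (0, w x.1) = _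
      rw [coe_Q₂_DE, b22_apply, X'.parD_eq _ hwx]
    have e3 : (h.Q₁.DE • x) = (X.dual x.1, 0) := by
      change ((h.Q₁.DE : S) : Module.End ℚ (V × V')) x = _
      rw [coe_Q₁_DE, b11_apply, X.parD_eq _ hx1]
    rw [e1, e2, e3, qq_apply, qq_apply]
    simp [hiso _ hx1]

theorem regS (h : Motivic X X' S) (x : S) : ∃ z : S, x * z * x = x := by
  obtain ⟨z, hz, e⟩ := h.reg x.1 x.2
  exact ⟨⟨z, hz⟩, Subtype.ext e⟩

/-- The block theorem in the ring. -/
theorem core (h : Motivic X X' S) (u : V ≃ₗ[ℚ] V') (hu : b21 u.toLinearMap ∈ S)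
    (hu' : b12 u.symm.toLinearMap ∈ S) (hm : ∀ x y, X'.mukai (u x) (u y) = X.mukai x y) :
    (∀ a, MvN (h.Q₁.B a) (h.Q₂.B a)) ∧
    (∀ j ≤ d, MvN (h.Q₁.π j) (h.Q₂.π j) → MvN (h.Q₁.π (2 * d - j)) (h.Q₂.π (2 * d - j))) ∧
    ∀ j ≤ d, (∀ i ≤ d, i ≠ j → block d i = block d j → MvN (h.Q₁.π i) (h.Q₂.π i)) →
      MvN (h.Q₁.π j) (h.Q₂.π j) := by
  obtain ⟨a, b, h1, h2, h3, h4, h5⟩ := h.exists_uv u hu hu' hm
  exact Pkg.core h.Q₁ h.Q₂ (X.qq_symm X') h.regS a b h1 h2 h3 h4 h5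

/-- The theorem in all degrees in the ring. -/
theorem core3 (h : Motivic X X' S) (u : V ≃ₗ[ℚ] V') (hu : b21 u.toLinearMap ∈ S)
    (hu' : b12 u.symm.toLinearMap ∈ S) (hm : ∀ x y, X'.mukai (u x) (u y) = X.mukai x y)
    (K : Set ℕ) (hK : ∀ i ∈ K, MvN (h.Q₁.π i) (h.Q₂.π i))
    (hh : ∀ e < 2, (∀ i ≤ d, ∀ j ≤ d, i % 2 = e → j % 2 = e → block d i = block d j →
        i ∉ K → j ∉ K → i = j) ∨
      (e ∈ K ∧ ∀ j, 1 < j → j < d → j % 2 = e → ∀ x : V, X.pr j x = x →
        (X.lef ^ (d - j + 1)) x = 0 → x = 0)) :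
    ∀ j ≤ 2 * d, MvN (h.Q₁.π j) (h.Q₂.π j) := by
  obtain ⟨a, b, h1, h2, h3, h4, h5⟩ := h.exists_uv u hu hu' hm
  refine PkgR.core3 h.Q₁ h.Q₂ (X.qq_symm X') h.regS a b h1 h2 h3 h4 h5 K hK (fun e he => ?_)
  rcases hh e he with h6 | ⟨h6, h7⟩
  · exact Or.inl h6
  · refine Or.inr ⟨h6, fun j hj1 hj2 hje x hx hx0 => ?_⟩
    have hx' : b11 V' (X.pr j) x = x := hx
    rw [b11_apply] at hx'
    have h8 : X.pr j x.1 = x.1 := congrArg Prod.fst hx'
    have h9 : x.2 = 0 := (congrArg Prod.snd hx').symm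
    have h10 : (b11 V' X.lef ^ (d - j + 1)) x = 0 := by
      have e1 : (((h.Q₁.L : S) ^ (d - j + 1) : S) : Module.End ℚ (V × V')) =
          (b11 V' X.lef) ^ (d - j + 1) := SubmonoidClass.coe_pow h.Q₁.L (d - j + 1)
      rw [← e1]
      exact hx0
    rw [b11_pow, b11_apply] at h10
    have h11 := h7 j hj1 hj2 hje x.1 h8 (congrArg Prod.fst h10)
    exact Prod.ext h11 h9

end Motivic

end Pool.Agent.Lib.OrlovRel
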