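import Pool.Agent.Lib.OrlovRel.Maps

/-!
# The motivated ring of the primitive parts
-/

set_option autoImplicit false

open scoped TensorProduct ComplexOrder

namespace Pool.Agent.Lib.OrlovRel

open Pool.Agent.Lib.OrlovSig Pool.Agent.Lib.OrlovNef Pool.Agent.Lib.OrlovChow HL

variable {d : ℕ} {V V' : Type*} [AddCommGroup V] [Module ℚ V] [AddCommGroup V'] [Module ℚ V']

/-- The inclusion of the product of the primitive parts. -/
noncomputable def inc2 (g : Module.End ℚ V) (g' : Module.End ℚ V') :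
    (LinearMap.range g × LinearMap.range g') →ₗ[ℚ] V × V' := (inc g).prodMap (inc g')

/-- The projection to the product of the primitive parts. -/
noncomputable def prj2 (g : Module.End ℚ V) (g' : Module.End ℚ V') :
    (V × V') →ₗ[ℚ] LinearMap.range g × LinearMap.range g' := (prj g).prodMap (prj g')

theorem inc2_prj2 (g : Module.End ℚ V) (g' : Module.End ℚ V') :
    inc2 g g' ∘ₗ prj2 g g' = b11 V' g + b22 V g' := by
  refine LinearMap.ext (fun x => ?_)
  rw [LinearMap.add_apply, b11_apply, b22_apply, Prod.mk_add_mk, add_zero, zero_add]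
  rfl

section

variable {X : HL d V} {X' : HL d V'} {P : X.Nef} {P' : X'.Nef} {m : ℕ} {g : Module.End ℚ V}
  {g' : Module.End ℚ V'}

theorem prj2_inc2 (hg : IsProj P m g) (hg' : IsProj P' m g') :
    prj2 g g' ∘ₗ inc2 g g' = LinearMap.id := by
  refine LinearMap.ext (fun x => Prod.ext ?_ ?_)
  · exact hg.prj_inc x.1
  · exact hg'.prj_inc x.2

/-- The ring of the primitive parts. -/
def cornerAlg (S : Subalgebra ℚ (Module.End ℚ (V × V'))) (hg : IsProj P m g)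
    (hg' : IsProj P' m g') (hgS : b11 V' g ∈ S) (hgS' : b22 V g' ∈ S) :
    Subalgebra ℚ (Module.End ℚ (LinearMap.range g × LinearMap.range g')) where
  carrier := {f | inc2 g g' ∘ₗ f ∘ₗ prj2 g g' ∈ S}
  mul_mem' := fun {f₁ f₂} h₁ h₂ => by
    have e : inc2 g g' ∘ₗ (f₁ * f₂) ∘ₗ prj2 g g' =
        (show Module.End ℚ (V × V') from inc2 g g' ∘ₗ f₁ ∘ₗ prj2 g g') *
          (inc2 g g' ∘ₗ f₂ ∘ₗ prj2 g g') := by
      refine LinearMap.ext (fun x => ?_)
      have h := LinearMap.congr_fun (prj2_inc2 hg hg') (f₂ (prj2 g g' x))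
      rw [LinearMap.comp_apply, LinearMap.id_apply] at h
      rw [Module.End.mul_apply]
      simp only [LinearMap.comp_apply, Module.End.mul_apply, h]
    rw [Set.mem_ofPred_eq] at *
    rw [e]
    exact Subalgebra.mul_mem _ h₁ h₂
  add_mem' := fun {f₁ f₂} h₁ h₂ => by
    rw [Set.mem_ofPred_eq] at *
    rw [LinearMap.add_comp, LinearMap.comp_add]
    exact Subalgebra.add_mem _ h₁ h₂
  algebraMap_mem' := fun r => by
    have e : algebraMap ℚ (Module.End ℚ (LinearMap.range g × LinearMap.range g')) r =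
        r • LinearMap.id := by
      refine LinearMap.ext (fun x => ?_)
      rw [Module.algebraMap_end_apply]
      rfl
    rw [Set.mem_ofPred_eq, e, LinearMap.smul_comp, LinearMap.comp_smul, LinearMap.id_comp,
      inc2_prj2]
    exact Subalgebra.smul_mem _ (Subalgebra.add_mem _ hgS hgS') r

variable {S : Subalgebra ℚ (Module.End ℚ (V × V'))} {hg : IsProj P m g} {hg' : IsProj P' m g'}
  {hgS : b11 V' g ∈ S} {hgS' : b22 V g' ∈ S}

theorem mem_cornerAlg {f : Module.End ℚ (LinearMap.range g × LinearMap.range g')} :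
    f ∈ cornerAlg S hg hg' hgS hgS' ↔
      (inc2 g g' ∘ₗ f ∘ₗ prj2 g g' : Module.End ℚ (V × V')) ∈ S := Iff.rfl

theorem corner_b11 (f : LinearMap.range g →ₗ[ℚ] LinearMap.range g) :
    inc2 g g' ∘ₗ b11 (LinearMap.range g') f ∘ₗ prj2 g g' = b11 V' (inc g ∘ₗ f ∘ₗ prj g) := by
  refine LinearMap.ext (fun x => Prod.ext rfl ?_)
  change inc g' (0 : LinearMap.range g') = 0
  rw [map_zero]

theorem corner_b22 (f : LinearMap.range g' →ₗ[ℚ] LinearMap.range g') :
    inc2 g g' ∘ₗ b22 (LinearMap.range g) f ∘ₗ prj2 g g' = b22 V (inc g' ∘ₗ f ∘ₗ prj g') := by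
  refine LinearMap.ext (fun x => Prod.ext ?_ rfl)
  change inc g (0 : LinearMap.range g) = 0
  rw [map_zero]

theorem corner_b21 (f : LinearMap.range g →ₗ[ℚ] LinearMap.range g') :
    inc2 g g' ∘ₗ b21 f ∘ₗ prj2 g g' = b21 (inc g' ∘ₗ f ∘ₗ prj g) := by
  refine LinearMap.ext (fun x => Prod.ext ?_ rfl)
  change inc g (0 : LinearMap.range g) = 0
  rw [map_zero]

theorem corner_b12 (f : LinearMap.range g' →ₗ[ℚ] LinearMap.range g) :
    inc2 g g' ∘ₗ b12 f ∘ₗ prj2 g g' = b12 (inc g ∘ₗ f ∘ₗ prj g') := by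
  refine LinearMap.ext (fun x => Prod.ext rfl ?_)
  change inc g' (0 : LinearMap.range g') = 0
  rw [map_zero]

theorem mem_corner₁ {f : LinearMap.range g →ₗ[ℚ] LinearMap.range g} :
    b11 (LinearMap.range g') f ∈ cornerAlg S hg hg' hgS hgS' ↔
      b11 V' (inc g ∘ₗ f ∘ₗ prj g) ∈ S := by
  rw [mem_cornerAlg, corner_b11]

theorem mem_corner₂ {f : LinearMap.range g' →ₗ[ℚ] LinearMap.range g'} :
    b22 (LinearMap.range g) f ∈ cornerAlg S hg hg' hgS hgS' ↔
      b22 V (inc g' ∘ₗ f ∘ₗ prj g') ∈ S := by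
  rw [mem_cornerAlg, corner_b22]

theorem mem_corner₂₁ {f : LinearMap.range g →ₗ[ℚ] LinearMap.range g'} :
    b21 f ∈ cornerAlg S hg hg' hgS hgS' ↔ b21 (inc g' ∘ₗ f ∘ₗ prj g) ∈ S := by
  rw [mem_cornerAlg, corner_b21]

theorem mem_corner₁₂ {f : LinearMap.range g' →ₗ[ℚ] LinearMap.range g} :
    b12 f ∈ cornerAlg S hg hg' hgS hgS' ↔ b12 (inc g ∘ₗ f ∘ₗ prj g') ∈ S := by
  rw [mem_cornerAlg, corner_b12]

theorem ind_mem₁ (hgS : b11 V' g ∈ S) {f : Module.End ℚ V} (hf : b11 V' f ∈ S) :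
    b11 V' (inc g ∘ₗ ind g f ∘ₗ prj g) ∈ S := by
  have e : b11 V' (inc g ∘ₗ ind g f ∘ₗ prj g) = b11 V' g * b11 V' f * b11 V' g := rfl
  rw [e]
  exact Subalgebra.mul_mem _ (Subalgebra.mul_mem _ hgS hf) hgS

theorem ind_mem₂ (hgS' : b22 V g' ∈ S) {f : Module.End ℚ V'} (hf : b22 V f ∈ S) :
    b22 V (inc g' ∘ₗ ind g' f ∘ₗ prj g') ∈ S := by
  have e : b22 V (inc g' ∘ₗ ind g' f ∘ₗ prj g') = b22 V g' * b22 V f * b22 V g' := rfl
  rw [e]
  exact Subalgebra.mul_mem _ (Subalgebra.mul_mem _ hgS' hf) hgS'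

theorem indMap_mem₂₁ (hgS : b11 V' g ∈ S) (hgS' : b22 V g' ∈ S) {f : V →ₗ[ℚ] V'}
    (hf : b21 f ∈ S) : b21 (inc g' ∘ₗ indMap g g' f ∘ₗ prj g) ∈ S := by
  have e : b21 (inc g' ∘ₗ indMap g g' f ∘ₗ prj g) = b22 V g' * b21 f * b11 V' g := rfl
  rw [e]
  exact Subalgebra.mul_mem _ (Subalgebra.mul_mem _ hgS' hf) hgS

theorem indMap_mem₁₂ (hgS : b11 V' g ∈ S) (hgS' : b22 V g' ∈ S) {f : V' →ₗ[ℚ] V}
    (hf : b12 f ∈ S) : b12 (inc g ∘ₗ indMap g' g f ∘ₗ prj g') ∈ S := by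
  have e : b12 (inc g ∘ₗ indMap g' g f ∘ₗ prj g') = b11 V' g * b12 f * b22 V g' := rfl
  rw [e]
  exact Subalgebra.mul_mem _ (Subalgebra.mul_mem _ hgS hf) hgS'

variable [FiniteDimensional ℚ V] [FiniteDimensional ℚ V']

/-- The ring of the primitive parts is motivated. -/
theorem Motivic.corner (h : Motivic X X' S) (hm : m ≤ d) (hg : IsProj P m g)
    (hg' : IsProj P' m g') (hgS : b11 V' g ∈ S) (hgS' : b22 V g' ∈ S) :
    Motivic (primHL hg hm) (primHL hg' hm) (cornerAlg S hg hg' hgS hgS') where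
  le := by
    intro f hf
    have hf' : (inc2 g g' ∘ₗ f ∘ₗ prj2 g g' : Module.End ℚ (V × V')) ∈ X.blockAlg X' := h.le hf
    obtain ⟨h1, h2, h3, h4⟩ := mem_blockAlg.1 hf'
    refine mem_blockAlg.2 ⟨?_, ?_, ?_, ?_⟩
    · have e : LinearMap.fst ℚ _ _ ∘ₗ f ∘ₗ LinearMap.inl ℚ _ _ =
          indMap g g (LinearMap.fst ℚ V V' ∘ₗ (inc2 g g' ∘ₗ f ∘ₗ prj2 g g') ∘ₗ
            LinearMap.inl ℚ V V') := by
        refine LinearMap.ext (fun x => ?_)
        have e1 : prj2 g g' (LinearMap.inl ℚ V V' (inc g x)) = (x, 0) :=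
          Prod.ext (hg.prj_inc x) (map_zero (prj g'))
        change (f (x, 0)).1 = prj g (inc g (f (prj2 g g' (LinearMap.inl ℚ V V' (inc g x)))).1)
        rw [e1, hg.prj_inc]
      rw [e]
      exact indMap_isHodge hg hg hm h1
    · have e : LinearMap.snd ℚ _ _ ∘ₗ f ∘ₗ LinearMap.inl ℚ _ _ =
          indMap g g' (LinearMap.snd ℚ V V' ∘ₗ (inc2 g g' ∘ₗ f ∘ₗ prj2 g g') ∘ₗ
            LinearMap.inl ℚ V V') := by
        refine LinearMap.ext (fun x => ?_)
        have e1 : prj2 g g' (LinearMap.inl ℚ V V' (inc g x)) = (x, 0) :=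
          Prod.ext (hg.prj_inc x) (map_zero (prj g'))
        change (f (x, 0)).2 = prj g' (inc g' (f (prj2 g g' (LinearMap.inl ℚ V V' (inc g x)))).2)
        rw [e1, hg'.prj_inc]
      rw [e]
      exact indMap_isHodge hg hg' hm h2
    · have e : LinearMap.fst ℚ _ _ ∘ₗ f ∘ₗ LinearMap.inr ℚ _ _ =
          indMap g' g (LinearMap.fst ℚ V V' ∘ₗ (inc2 g g' ∘ₗ f ∘ₗ prj2 g g') ∘ₗ
            LinearMap.inr ℚ V V') := by
        refine LinearMap.ext (fun x => ?_)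
        have e1 : prj2 g g' (LinearMap.inr ℚ V V' (inc g' x)) = (0, x) :=
          Prod.ext (map_zero (prj g)) (hg'.prj_inc x)
        change (f (0, x)).1 = prj g (inc g (f (prj2 g g' (LinearMap.inr ℚ V V' (inc g' x)))).1)
        rw [e1, hg.prj_inc]
      rw [e]
      exact indMap_isHodge hg' hg hm h3
    · have e : LinearMap.snd ℚ _ _ ∘ₗ f ∘ₗ LinearMap.inr ℚ _ _ =
          indMap g' g' (LinearMap.snd ℚ V V' ∘ₗ (inc2 g g' ∘ₗ f ∘ₗ prj2 g g') ∘ₗ
            LinearMap.inr ℚ V V') := by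
        refine LinearMap.ext (fun x => ?_)
        have e1 : prj2 g g' (LinearMap.inr ℚ V V' (inc g' x)) = (0, x) :=
          Prod.ext (map_zero (prj g)) (hg'.prj_inc x)
        change (f (0, x)).2 = prj g' (inc g' (f (prj2 g g' (LinearMap.inr ℚ V V' (inc g' x)))).2)
        rw [e1, hg'.prj_inc]
      rw [e]
      exact indMap_isHodge hg' hg' hm h4
  pr₁ j := mem_corner₁.2 (ind_mem₁ hgS (h.pr₁ j))
  pr₂ j := mem_corner₂.2 (ind_mem₂ hgS' (h.pr₂ j))
  lef₁ := mem_corner₁.2 (ind_mem₁ hgS h.lef₁)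
  lef₂ := mem_corner₂.2 (ind_mem₂ hgS' h.lef₂)
  can₁ := mem_corner₁.2 (ind_mem₁ hgS h.can₁)
  can₂ := mem_corner₂.2 (ind_mem₂ hgS' h.can₂)
  reg := by
    intro x hx
    obtain ⟨z, hz, e⟩ := h.reg _ (mem_cornerAlg.1 hx)
    have hγ : (inc2 g g' ∘ₗ prj2 g g' : Module.End ℚ (V × V')) ∈ S := by
      rw [inc2_prj2]
      exact Subalgebra.add_mem _ hgS hgS'
    refine ⟨prj2 g g' ∘ₗ z ∘ₗ inc2 g g', ?_, ?_⟩
    · rw [mem_cornerAlg]
      exact Subalgebra.mul_mem _ (Subalgebra.mul_mem _ hγ hz) hγ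
    · have hid := fun y => LinearMap.congr_fun (prj2_inc2 hg hg') y
      simp only [LinearMap.comp_apply, LinearMap.id_apply] at hid
      refine LinearMap.ext (fun w => ?_)
      have e1 := congrArg (prj2 g g') (LinearMap.congr_fun e (inc2 g g' w))
      simp only [Module.End.mul_apply, LinearMap.comp_apply, hid] at e1
      simp only [Module.End.mul_apply, LinearMap.comp_apply]
      exact e1

/-- The induced isomorphism of the primitive parts is in the ring. -/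
theorem indEquiv_mem (hg : IsProj P m g) (hg' : IsProj P' m g') (hgS : b11 V' g ∈ S)
    (hgS' : b22 V g' ∈ S) (u : V ≃ₗ[ℚ] V') (hN : ∀ x, u (P.op x) = P'.op (u x))
    (hu : b21 u.toLinearMap ∈ S) (hu' : b12 u.symm.toLinearMap ∈ S) :
    b21 (indEquiv hg hg' u hN).toLinearMap ∈ cornerAlg S hg hg' hgS hgS' ∧
      b12 (indEquiv hg hg' u hN).symm.toLinearMap ∈ cornerAlg S hg hg' hgS hgS' :=
  ⟨mem_corner₂₁.2 (indMap_mem₂₁ hgS hgS' hu), mem_corner₁₂.2 (indMap_mem₁₂ hgS hgS' hu')⟩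

end

end Pool.Agent.Lib.OrlovRel
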