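import Pool.Agent.Lib.MP_5c0b30_ag.MukaiAlg
import Pool.Agent.Lib.OrlovNef.PrimIso

/-!
# Chow motives with polarised cohomology and nef classes

`C` is a `ℚ`-linear category with an action `X ↦ X⟦n⟧` of `ℤ` (the category of Chow motives with
rational coefficients over a subfield of `ℂ`, and the Tate twists), and `T` is a realization of `C`
in total cohomology.  For the motive `M` of a smooth projective variety `X` of dimension `d` the
cohomology `W M` carries a Hodge-Lefschetz datum of dimension `d`.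
-/

set_option autoImplicit false

open CategoryTheory
open scoped TensorProduct

namespace Pool.Agent.Lib.OrlovRel

open Pool.Agent.Lib.OrlovSig Pool.Agent.Lib.OrlovNef Pool.Agent.Lib.MP_5c0b30_ag

universe v u w

variable {C : Type u} [Category.{v} C] [Preadditive C] [HasShift C ℤ]
  {W : C → Type w} [∀ X, AddCommGroup (W X)] [∀ X, Module ℚ (W X)]

/-- Correspondences between `M` and `M'` act on the cohomology by maps which respect the Hodge
decompositions up to Tate twists, and have transposes for the Poincaré pairings. -/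
structure Corr (T : TotalRealization C W) {d : ℕ} {M M' : C} (X : HL d (W M))
    (X' : HL d (W M')) : Prop where
  hodge : ∀ (n : ℤ) (f : M ⟶ M'⟦n⟧) (c : ℤ) (x : ℂ ⊗[ℚ] W M),
    (T.act f).baseChange ℂ (X.col c x) = X'.col c ((T.act f).baseChange ℂ x)
  transpose : ∀ (n : ℤ) (f : M ⟶ M'⟦n⟧), ∃ g : M' ⟶ M⟦n⟧, ∀ (x : W M) (y : W M'),
    X'.pair (T.act f x) y = X.pair x (T.act g y)

/-- The Hodge-Lefschetz datum `X` on the cohomology of `M` is compatible with the realization: the
grading is the one of the realization, the operators `lef` and `can` (cup product with an ample class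
and with `c₁`) are given by morphisms `M ⟶ M⟦1⟧`, and the Lefschetz standard conjecture holds, i.e.
the inverse of `lef ^ (d - j) : H^j → H^(2d-j)` is given by a morphism `M ⟶ M⟦j - d⟧`. -/
structure Standard (T : TotalRealization C W) {d : ℕ} {M : C} (X : HL d (W M)) : Prop where
  deg_pr : ∀ (j : ℕ) (x : W M), T.deg M (X.pr j x) = ((j : ℚ) / 2) • X.pr j x
  lef_alg : ∃ f : M ⟶ M⟦(1 : ℤ)⟧, T.act f = X.lef
  can_alg : ∃ f : M ⟶ M⟦(1 : ℤ)⟧, T.act f = X.can
  inverse : ∀ j ≤ d, ∃ f : M ⟶ M⟦(j : ℤ) - d⟧, ∀ x : W M,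
    T.act f ((X.lef ^ (d - j)) (X.pr j x)) = X.pr j x

/-- Linear combinations of the maps given by morphisms `M ⟶ M'⟦n⟧` and `M' ⟶ M⟦n⟧` induce mutually
inverse isomorphisms between the parts of the primitive spaces
`P_m = ker N ^ (m + 1) / (ker N ^ m + im N)` of `X` and `X'` in the degrees of `s`. -/
def AlgPrim (T : TotalRealization C W) {d : ℕ} {M M' : C} {X : HL d (W M)} {X' : HL d (W M')}
    (P : X.Nef) (P' : X'.Nef) (m : ℕ) (s : Finset ℕ) : Prop :=
  ∃ f ∈ T.alg M M', ∃ g ∈ T.alg M' M,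
    (∀ x, (P.op ^ (m + 1)) x = 0 → (P'.op ^ (m + 1)) (f x) = 0 ∧
      (Low P.op m x → Low P'.op m (f x)) ∧ Low P.op m (g (f x) - X.prOn s x)) ∧
    ∀ y, (P'.op ^ (m + 1)) y = 0 → (P.op ^ (m + 1)) (g y) = 0 ∧
      (Low P'.op m y → Low P.op m (g y)) ∧ Low P'.op m (f (g y) - X'.prOn s y)

/-- There are no primitive classes of degree `j` in `P_m`. -/
def NoPrim {d : ℕ} {V : Type*} [AddCommGroup V] [Module ℚ V] {X : HL d V} (P : X.Nef)
    (m j : ℕ) : Prop :=
  ∀ x, X.pr j x = x → (P.op ^ (m + 1)) x = 0 → Low P.op m ((X.lef ^ (d - m - j + 1)) x) →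
    Low P.op m x

end Pool.Agent.Lib.OrlovRel
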