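import Pool.Agent.Lib.OrlovRel.Ring
import Pool.Agent.Lib.MP_5c0b30_ag.MukaiMain

/-!
# From algebraic isomorphisms of primitive parts to isomorphisms of motives
-/

set_option autoImplicit false

open CategoryTheory
open scoped TensorProduct ComplexOrder

namespace Pool.Agent.Lib.OrlovRel

open Pool.Agent.Lib.OrlovSig Pool.Agent.Lib.OrlovNef Pool.Agent.Lib.OrlovChow
  Pool.Agent.Lib.MP_5c0b30_ag HL

universe v u w

variable {C : Type u} [Category.{v} C] [Preadditive C] [HasShift C ℤ]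
  {W : C → Type w} [∀ X, AddCommGroup (W X)] [∀ X, Module ℚ (W X)]
  {T : TotalRealization C W} {d : ℕ} {M M' : C} {X : HL d (W M)} {X' : HL d (W M')}

theorem b21_mem {f : W M →ₗ[ℚ] W M'} : b21 f ∈ algRing T M M' ↔ f ∈ T.alg M M' :=
  ⟨fun h => (mem_algRing.1 h).2.1, fun h => mem_algRing.2 (blk21 h)⟩

theorem b12_mem {f : W M' →ₗ[ℚ] W M} : b12 f ∈ algRing T M M' ↔ f ∈ T.alg M' M :=
  ⟨fun h => (mem_algRing.1 h).2.2.1, fun h => mem_algRing.2 (blk12 h)⟩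

theorem sprim_iff {P : X.Nef} {P' : X'.Nef} {m : ℕ} {s : Finset ℕ} :
    SPrim (algRing T M M') P P' m s ↔ AlgPrim T P P' m s := by
  constructor
  · rintro ⟨f, g, hf, hg, h⟩
    exact ⟨f, b21_mem.1 hf, g, b12_mem.1 hg, h⟩
  · rintro ⟨f, hf, g, hg, h⟩
    exact ⟨f, g, b21_mem.2 hf, b12_mem.2 hg, h⟩

variable [FiniteDimensional ℚ (W M)] [FiniteDimensional ℚ (W M')]

/-- The ring of algebraic endomorphisms is motivated. -/
theorem motivic_alg (s : Standard T X) (s' : Standard T X') (h11 : Corr T X X)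
    (h12 : Corr T X X') (h21 : Corr T X' X) (h22 : Corr T X' X') :
    Motivic X X' (algRing T M M') where
  le := by
    intro f hf
    obtain ⟨f1, f2, f3, f4⟩ := mem_algRing.1 hf
    exact mem_blockAlg.2 ⟨h11.isHodge f1, h12.isHodge f2, h21.isHodge f3, h22.isHodge f4⟩
  pr₁ j := mem_algRing.2 (blk11 (pr_mem s h11 j))
  pr₂ j := mem_algRing.2 (blk22 (pr_mem s' h22 j))
  lef₁ := mem_algRing.2 (blk11 (lef_mem s))
  lef₂ := mem_algRing.2 (blk22 (lef_mem s'))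
  can₁ := mem_algRing.2 (blk11 (can_mem s))
  can₂ := mem_algRing.2 (blk22 (can_mem s'))
  reg x hx := by
    obtain ⟨z, hz⟩ := regular_alg s s' h11 h12 h21 h22 ⟨x, hx⟩
    exact ⟨z.1, z.2, congrArg Subtype.val hz⟩

omit [FiniteDimensional ℚ (W M)] [FiniteDimensional ℚ (W M')] in
/-- Mutually inverse algebraic maps of degree `0` between the cohomologies of `M` and `M'` come from
an isomorphism as soon as cohomologically trivial endomorphisms are radical. -/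
theorem iso_of_alg' [Linear ℚ C] (T : TotalRealization C W) {M M' : C} (hM : T.TrivialRadical M)
    (hM' : T.TrivialRadical M') {F : W M →ₗ[ℚ] W M'} {F' : W M' →ₗ[ℚ] W M}
    (hF : F ∈ T.alg M M') (hF' : F' ∈ T.alg M' M) (hF'F : F' ∘ₗ F = LinearMap.id)
    (hFF' : F ∘ₗ F' = LinearMap.id) (hcomm : T.deg M' ∘ₗ F = F ∘ₗ T.deg M) :
    ∃ i : M ≅ M', T.act (ShiftedHom.mk₀ (0 : ℤ) rfl i.hom) = F := by
  have hcomm' : T.deg M ∘ₗ F' = F' ∘ₗ T.deg M' := by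
    calc T.deg M ∘ₗ F' = (F' ∘ₗ F) ∘ₗ (T.deg M ∘ₗ F') := by rw [hF'F, LinearMap.id_comp]
      _ = F' ∘ₗ ((F ∘ₗ T.deg M) ∘ₗ F') := rfl
      _ = F' ∘ₗ ((T.deg M' ∘ₗ F) ∘ₗ F') := by rw [hcomm]
      _ = (F' ∘ₗ T.deg M') ∘ₗ (F ∘ₗ F') := rfl
      _ = F' ∘ₗ T.deg M' := by rw [hFF', LinearMap.comp_id]
  have key : ∀ {X Y : C} {H : W X →ₗ[ℚ] W Y} (_ : H ∈ T.alg X Y)
      (_ : T.deg Y ∘ₗ H = H ∘ₗ T.deg X),
      ∃ m : X ⟶ Y, H = T.act (ShiftedHom.mk₀ (0 : ℤ) rfl m) := by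
    intro X Y H hH hH'
    obtain ⟨u, s, hs, rfl⟩ := T.exists_family hH
    refine ⟨(ShiftedHom.homEquiv (0 : ℤ) rfl).symm (u 0), ?_⟩
    have h6 : ShiftedHom.mk₀ (0 : ℤ) rfl ((ShiftedHom.homEquiv (0 : ℤ) rfl).symm (u 0)) = u 0 :=
      (ShiftedHom.homEquiv (0 : ℤ) rfl).apply_symm_apply (u 0)
    rw [h6]
    refine Finset.sum_eq_single 0 (fun n hn hn0 => ?_) (fun h0 => ?_)
    · exact T.act_eq_zero_of_commutes u s hH' n hn hn0
    · rw [hs 0 h0, T.act_zero]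
  obtain ⟨m, hm⟩ := key hF hcomm
  obtain ⟨m', hm'⟩ := key hF' hcomm'
  have unit : ∀ {X Y : C} (_ : T.TrivialRadical X) (p : X ⟶ Y) (q : Y ⟶ X)
      (_ : T.act (ShiftedHom.mk₀ (0 : ℤ) rfl q) ∘ₗ T.act (ShiftedHom.mk₀ (0 : ℤ) rfl p) =
        LinearMap.id), IsUnit (End.of (p ≫ q)) := by
    intro X Y hX p q h
    have h6 : End.of (𝟙 X - p ≫ q) ∈ Ring.jacobson (End X) := by
      refine hX _ ?_
      have h7 : ShiftedHom.mk₀ (0 : ℤ) rfl (𝟙 X - p ≫ q) =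
          ShiftedHom.mk₀ (0 : ℤ) rfl (𝟙 X) - ShiftedHom.mk₀ (0 : ℤ) rfl (p ≫ q) := by
        rw [eq_sub_iff_add_eq, ← ShiftedHom.mk₀_add, sub_add_cancel]
      have h8 : ShiftedHom.comp (ShiftedHom.mk₀ (0 : ℤ) rfl p) (ShiftedHom.mk₀ (0 : ℤ) rfl q)
          (by omega : (0 : ℤ) + 0 = 0) = ShiftedHom.mk₀ (0 : ℤ) rfl (p ≫ q) := by
        rw [ShiftedHom.mk₀_comp_mk₀]
      rw [h7, T.act_sub, T.act_id, ← h8, T.act_comp, h, sub_self]
    have h9 := isUnit_one_sub_of_mem_jacobson h6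
    have h10 : (1 : End X) - End.of (𝟙 X - p ≫ q) = End.of (p ≫ q) :=
      sub_sub_cancel (𝟙 X) (p ≫ q)
    rwa [h10] at h9
  have u1 := unit hM m m' (by rw [← hm, ← hm', hF'F])
  have u2 := unit hM' m' m (by rw [← hm, ← hm', hFF'])
  obtain ⟨⟨p, q, hpq, hqp⟩, hp⟩ := u1
  obtain ⟨⟨p', q', hpq', hqp'⟩, hp'⟩ := u2
  dsimp only at hp hp'
  subst hp hp'
  have k1 : (m ≫ m') ≫ q = 𝟙 M := hqp
  have k4 : q' ≫ (m' ≫ m) = 𝟙 M' := hpq'
  have k5 : m ≫ (m' ≫ q) = 𝟙 M := by simpa only [Category.assoc] using k1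
  have k6 : (q' ≫ m') ≫ m = 𝟙 M' := by simpa only [Category.assoc] using k4
  have k7 : q' ≫ m' = m' ≫ q := by
    calc q' ≫ m' = (q' ≫ m') ≫ (m ≫ (m' ≫ q)) := by rw [k5, Category.comp_id]
      _ = ((q' ≫ m') ≫ m) ≫ (m' ≫ q) := by simp only [Category.assoc]
      _ = m' ≫ q := by rw [k6, Category.id_comp]
  exact ⟨⟨m, m' ≫ q, k5, by rw [← k7, k6]⟩, hm.symm⟩

/-- The relative theorem for motives. -/
theorem iso_of_prim [Linear ℚ C] {P : X.Nef} {P' : X'.Nef} (s : Standard T X)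
    (s' : Standard T X') (h11 : Corr T X X)
    (h12 : Corr T X X') (h21 : Corr T X' X) (h22 : Corr T X' X') (hM : T.TrivialRadical M)
    (hM' : T.TrivialRadical M') (hP : P.op ∈ T.alg M M) (hP' : P'.op ∈ T.alg M' M')
    (u : W M ≃ₗ[ℚ] W M') (hu : u.toLinearMap ∈ T.alg M M')
    (hu' : u.symm.toLinearMap ∈ T.alg M' M) (hmk : ∀ x y, X'.mukai (u x) (u y) = X.mukai x y)
    (hN : ∀ x, u (P.op x) = P'.op (u x)) (K : Set (ℕ × ℕ))
    (hK : ∀ t ∈ K, AlgPrim T P P' t.1 {t.2})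
    (hh : ∀ m ≤ d, ∀ e < 2, (∀ i j, m + i ≤ d → m + j ≤ d → i % 2 = e → j % 2 = e →
        block (d - m) i = block (d - m) j → (m, i) ∉ K → (m, j) ∉ K → i = j) ∨
      ((m, e) ∈ K ∧ ∀ j, 1 < j → m + j < d → j % 2 = e → NoPrim P m j)) :
    ∃ i : M ≅ M', ∀ x, T.act (ShiftedHom.mk₀ (0 : ℤ) rfl i.hom) (P.op x) =
      P'.op (T.act (ShiftedHom.mk₀ (0 : ℤ) rfl i.hom) x) := by
  have h := motivic_alg s s' h11 h12 h21 h22
  have hPS : b11 (W M') P.op ∈ algRing T M M' := mem_algRing.2 (blk11 hP)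
  have hPS' : b22 (W M) P'.op ∈ algRing T M M' := mem_algRing.2 (blk22 hP')
  obtain ⟨g, g', hf⟩ := h.exists_fam P P' hPS hPS'
  obtain ⟨F, hF, hF', hFp, hFN⟩ := h.exists_iso hPS hPS' hf (fun m hm =>
    h.prim_all hf u (b21_mem.2 hu) (b12_mem.2 hu') hmk hN m hm {i | (m, i) ∈ K}
      (fun i hi => sprim_iff.2 (hK (m, i) hi)) (hh m hm))
  obtain ⟨i, hi⟩ : ∃ i : M ≅ M', T.act (ShiftedHom.mk₀ (0 : ℤ) rfl i.hom) = F.toLinearMap := by
    refine iso_of_alg' T hM hM' (b21_mem.1 hF) (b12_mem.1 hF') ?_ ?_ ?_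
    · exact LinearMap.ext (fun x => F.symm_apply_apply x)
    · exact LinearMap.ext (fun x => F.apply_symm_apply x)
    · apply X.ext_pr
      intro i x
      rw [LinearMap.comp_apply, LinearMap.comp_apply, s.deg_pr, map_smul]
      change T.deg M' (F (X.pr i x)) = ((i : ℚ) / 2) • F (X.pr i x)
      rw [hFp, s'.deg_pr]
  exact ⟨i, fun x => by rw [hi]; exact hFN x⟩

end Pool.Agent.Lib.OrlovRel
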