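import Pool.Agent.Lib.OrlovRel.Core

/-!
# Equivalent idempotents and maps, and projectors in the ring
-/

set_option autoImplicit false

open scoped TensorProduct ComplexOrder

namespace Pool.Agent.Lib.OrlovRel

open Pool.Agent.Lib.OrlovSig Pool.Agent.Lib.OrlovNef Pool.Agent.Lib.OrlovChow HL

variable {d : ℕ} {V V' : Type*} [AddCommGroup V] [Module ℚ V] [AddCommGroup V'] [Module ℚ V']

namespace Motivic

variable {X : HL d V} {X' : HL d V'} {S : Subalgebra ℚ (Module.End ℚ (V × V'))}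

/-- The maps given by an equivalence of idempotents. -/
theorem maps_of_mvn {p : V →ₗ[ℚ] V} {p' : V' →ₗ[ℚ] V'} {a b : S}
    (ha : (a : Module.End ℚ (V × V')) = b11 V' p) (hb : (b : Module.End ℚ (V × V')) = b22 V p')
    (hab : MvN a b) : ∃ (f : V →ₗ[ℚ] V') (g : V' →ₗ[ℚ] V), b21 f ∈ S ∧ b12 g ∈ S ∧
      g ∘ₗ f = p ∧ f ∘ₗ g = p' ∧ f ∘ₗ p = f ∧ p' ∘ₗ f = f ∧ g ∘ₗ p' = g ∧ p ∘ₗ g = g := by
  obtain ⟨x, y, hxy, hyx, h1, h2, h3, h4⟩ := hab
  have c : ∀ {s t r : S}, s * t = r → (s : Module.End ℚ (V × V')) * t = r :=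
    fun e => congrArg Subtype.val e
  have cxy := c hxy
  have cyx := c hyx
  have c1 := c h1
  have c2 := c h2
  have c3 := c h3
  have c4 := c h4
  rw [ha] at cxy c1 c4
  rw [hb] at cyx c2 c3
  set f : V →ₗ[ℚ] V' := LinearMap.snd ℚ V V' ∘ₗ (y : Module.End ℚ (V × V')) ∘ₗ
    LinearMap.inl ℚ V V' with hf
  set g : V' →ₗ[ℚ] V := LinearMap.fst ℚ V V' ∘ₗ (x : Module.End ℚ (V × V')) ∘ₗ
    LinearMap.inr ℚ V V' with hg
  have ey : (y : Module.End ℚ (V × V')) = b21 f := by
    have e1 : b21 f = b22 V LinearMap.id * (y : Module.End ℚ (V × V')) * b11 V' LinearMap.id := rfl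
    rw [e1]
    conv_rhs => rw [← c3, mul_assoc, mul_assoc, ← mul_assoc, b22_mul_b22, LinearMap.id_comp,
      ← mul_assoc, c3]
    conv_rhs => rw [← c4, mul_assoc, b11_mul_b11, LinearMap.comp_id, c4]
  have ex : (x : Module.End ℚ (V × V')) = b12 g := by
    have e1 : b12 g = b11 V' LinearMap.id * (x : Module.End ℚ (V × V')) * b22 V LinearMap.id := rfl
    rw [e1]
    conv_rhs => rw [← c1, mul_assoc, mul_assoc, ← mul_assoc, b11_mul_b11, LinearMap.id_comp,
      ← mul_assoc, c1]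
    conv_rhs => rw [← c2, mul_assoc, b22_mul_b22, LinearMap.comp_id, c2]
  have b21_inj : ∀ {r s : V →ₗ[ℚ] V'}, b21 r = b21 s → r = s := fun e =>
    LinearMap.ext (fun x => congrArg Prod.snd (LinearMap.congr_fun e (x, 0)))
  have b12_inj : ∀ {r s : V' →ₗ[ℚ] V}, b12 r = b12 s → r = s := fun e =>
    LinearMap.ext (fun x => congrArg Prod.fst (LinearMap.congr_fun e (0, x)))
  rw [ex, ey] at cxy cyx
  rw [ex] at c1 c2
  rw [ey] at c3 c4
  refine ⟨f, g, ?_, ?_, b11_injective (V' := V') cxy, b22_injective (V := V) cyx, b21_inj c4,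
    b21_inj c3, b12_inj c2, b12_inj c1⟩
  · rw [← ey]
    exact y.2
  · rw [← ex]
    exact x.2

omit [AddCommGroup V'] [Module ℚ V'] in
theorem _root_.Pool.Agent.Lib.OrlovRel.idem_apply {p : V →ₗ[ℚ] V} (hp : p ∘ₗ p = p) (x : V) :
    p (p x) = p x := LinearMap.congr_fun hp x

/-- Mutually inverse maps give an equivalence of idempotents. -/
theorem mvn_of_maps {p : V →ₗ[ℚ] V} {p' : V' →ₗ[ℚ] V'} {a b : S}
    (ha : (a : Module.End ℚ (V × V')) = b11 V' p) (hb : (b : Module.End ℚ (V × V')) = b22 V p')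
    (hp : p ∘ₗ p = p) (hp' : p' ∘ₗ p' = p') (f : V →ₗ[ℚ] V') (g : V' →ₗ[ℚ] V)
    (hf : b21 f ∈ S) (hg : b12 g ∈ S) (hgf : g ∘ₗ f = p) (hfg : f ∘ₗ g = p') : MvN a b := by
  have hfp : b21 (f ∘ₗ p) ∈ S := by
    rw [← b21_mul_b11, ← ha]
    exact Subalgebra.mul_mem _ hf a.2
  have hgp : b12 (g ∘ₗ p') ∈ S := by
    rw [← b12_mul_b22, ← hb]
    exact Subalgebra.mul_mem _ hg b.2
  have k1 : ∀ x, g (f x) = p x := fun x => LinearMap.congr_fun hgf x
  have k2 : ∀ y, f (g y) = p' y := fun y => LinearMap.congr_fun hfg y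
  have k3 : ∀ x, p (p x) = p x := fun x => LinearMap.congr_fun hp x
  have k4 : ∀ y, p' (p' y) = p' y := fun y => LinearMap.congr_fun hp' y
  refine ⟨⟨_, hgp⟩, ⟨_, hfp⟩, ?_, ?_, ?_, ?_, ?_, ?_⟩
  · refine Subtype.ext ?_
    rw [ha]
    change b12 (g ∘ₗ p') * b21 (f ∘ₗ p) = _
    rw [b12_mul_b21]
    congr 1
    ext x
    simp only [LinearMap.comp_apply]
    rw [← k2, k1, k1, k3, k3]
  · refine Subtype.ext ?_
    rw [hb]
    change b21 (f ∘ₗ p) * b12 (g ∘ₗ p') = _
    rw [b21_mul_b12]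
    congr 1
    ext y
    simp only [LinearMap.comp_apply]
    rw [← k1, k2, k2, k4, k4]
  · refine Subtype.ext ?_
    change (a : Module.End ℚ (V × V')) * b12 (g ∘ₗ p') = b12 (g ∘ₗ p')
    rw [ha, b11_mul_b12]
    congr 1
    ext y
    simp only [LinearMap.comp_apply]
    rw [← k1, k2, k4]
  · refine Subtype.ext ?_
    change b12 (g ∘ₗ p') * (b : Module.End ℚ (V × V')) = b12 (g ∘ₗ p')
    rw [hb, b12_mul_b22, LinearMap.comp_assoc, hp']
  · refine Subtype.ext ?_
    change (b : Module.End ℚ (V × V')) * b21 (f ∘ₗ p) = b21 (f ∘ₗ p)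
    rw [hb, b22_mul_b21]
    congr 1
    ext x
    simp only [LinearMap.comp_apply]
    rw [← k2, k1, k3]
  · refine Subtype.ext ?_
    change b21 (f ∘ₗ p) * (a : Module.End ℚ (V × V')) = b21 (f ∘ₗ p)
    rw [ha, b21_mul_b11, LinearMap.comp_assoc, hp]

end Motivic

/-- A regular algebra of Hodge endomorphisms of a datum. -/
structure Reg (X : HL d V) (A : Subalgebra ℚ (Module.End ℚ V)) : Prop where
  hodge : ∀ f ∈ A, X.IsHodge X f
  pr : ∀ j, X.pr j ∈ A
  reg : ∀ f ∈ A, ∃ z ∈ A, f * z * f = f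

theorem Motivic.reg_alg₁ {X : HL d V} {X' : HL d V'} {S : Subalgebra ℚ (Module.End ℚ (V × V'))}
    (h : Motivic X X' S) : Reg X h.alg₁ :=
  ⟨fun _ hf => h.isHodge₁ hf, h.pr₁, fun _ hf => by
    obtain ⟨z, hz, e⟩ := h.reg₁ hf
    exact ⟨z, hz, e⟩⟩

theorem Motivic.reg_alg₂ {X : HL d V} {X' : HL d V'} {S : Subalgebra ℚ (Module.End ℚ (V × V'))}
    (h : Motivic X X' S) : Reg X' h.alg₂ :=
  ⟨fun _ hf => h.isHodge₂ hf, h.pr₂, fun _ hf => by
    obtain ⟨z, hz, e⟩ := h.reg₂ hf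
    exact ⟨z, hz, e⟩⟩

namespace Reg

variable {X : HL d V} {A : Subalgebra ℚ (Module.End ℚ V)}

/-- A map of degree `2 k` in the algebra has a generalised inverse of degree `-2 k`. -/
theorem exists_inverse (h : Reg X A) {k : ℕ} {f : Module.End ℚ V} (hf : X.Deg k f) (hfA : f ∈ A) :
    ∃ z ∈ A, X.CoDeg k z ∧ f * z * f = f := by
  obtain ⟨Z, hZA, hZf⟩ := h.reg f hfA
  have hZH : X.IsHodge X Z := h.hodge Z hZA
  set Z' : Module.End ℚ V := ∑ j ∈ Finset.range (2 * d + 1), X.pr j * Z * X.pr (j + 2 * k) with hZ'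
  have hpr : ∀ i, X.pr i * Z' = X.pr i * Z * X.pr (i + 2 * k) := by
    intro i
    rw [hZ', Finset.mul_sum]
    by_cases hi : i ≤ 2 * d
    · rw [Finset.sum_eq_single_of_mem i (Finset.mem_range.2 (by omega))]
      · rw [← mul_assoc, ← mul_assoc, X.pr_self]
      · intro j _ hj
        rw [← mul_assoc, ← mul_assoc, X.pr_ne i j (Ne.symm hj), zero_mul, zero_mul]
    · rw [X.pr_top i (by omega), zero_mul, zero_mul]
      exact Finset.sum_eq_zero (fun j _ => by rw [zero_mul])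
  have hpr' : ∀ i, Z' * X.pr (i + 2 * k) = X.pr i * Z * X.pr (i + 2 * k) := by
    intro i
    rw [hZ', Finset.sum_mul]
    by_cases hi : i ≤ 2 * d
    · rw [Finset.sum_eq_single_of_mem i (Finset.mem_range.2 (by omega))]
      · rw [mul_assoc, X.pr_self]
      · intro j _ hj
        rw [mul_assoc, X.pr_ne _ _ (by omega), mul_zero]
    · rw [X.pr_top i (by omega), zero_mul, zero_mul]
      refine Finset.sum_eq_zero (fun j hj => ?_)
      rw [Finset.mem_range] at hj
      rw [mul_assoc, X.pr_ne _ _ (by omega), mul_zero]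
  have hpr0 : ∀ i < 2 * k, Z' * X.pr i = 0 := by
    intro i hi
    rw [hZ', Finset.sum_mul]
    refine Finset.sum_eq_zero (fun j _ => ?_)
    rw [mul_assoc, X.pr_ne _ _ (by omega), mul_zero]
  refine ⟨Z', ?_, ⟨?_, fun j => by rw [hpr, hpr'], hpr0⟩, ?_⟩
  · exact Subalgebra.sum_mem _ (fun j _ => Subalgebra.mul_mem _ (Subalgebra.mul_mem _ (h.pr j)
      hZA) (h.pr _))
  · exact isHodge_sum _ _ (fun j => IsHodge.comp (IsHodge.comp (X.isHodge_pr j) hZH)
      (X.isHodge_pr _))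
  · apply X.ext_pr
    intro j x
    have h1 : f * Z' * f * X.pr j = f * X.pr j := by
      calc f * Z' * f * X.pr j = f * (Z' * X.pr (j + 2 * k)) * f := by
            rw [mul_assoc, mul_assoc, hf.2, mul_assoc, mul_assoc]
        _ = f * (X.pr j * Z * X.pr (j + 2 * k)) * f := by rw [hpr']
        _ = X.pr (j + 2 * k) * (f * Z * f) * X.pr j := by
            calc f * (X.pr j * Z * X.pr (j + 2 * k)) * f
                = (f * X.pr j) * Z * (X.pr (j + 2 * k) * f) := by simp only [mul_assoc]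
              _ = (X.pr (j + 2 * k) * f) * Z * (f * X.pr j) := by rw [hf.2]
              _ = X.pr (j + 2 * k) * (f * Z * f) * X.pr j := by simp only [mul_assoc]
        _ = f * X.pr j := by rw [hZf, ← hf.2, mul_assoc, X.pr_self]
    exact LinearMap.congr_fun h1 x

/-- The projectors of a nef class in the algebra are in the algebra. -/
theorem exists_isProj (h : Reg X A) (P : X.Nef) (hP : P.op ∈ A) (m : ℕ) :
    ∃ g ∈ A, IsProj P m g := by
  set n := P.op with hn
  have hd : ∀ k, X.Deg k (n ^ k) := fun k => P.deg.pow k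
  have hA : ∀ k, n ^ k ∈ A := fun k => Subalgebra.pow_mem _ hP k
  have h1A : (1 : Module.End ℚ V) ∈ A := Subalgebra.one_mem _
  obtain ⟨z₁, hz₁A, hz₁, e₁⟩ := h.exists_inverse (hd (m + 1)) (hA _)
  obtain ⟨z₂, hz₂A, hz₂, -⟩ := h.exists_inverse (hd (m + 2)) (hA _)
  have hk₁ : X.Deg 0 (kEl n z₁ (m + 1)) := (Deg.one X).sub (hz₁.mul_deg (hd _))
  have hk₁A : kEl n z₁ (m + 1) ∈ A :=
    Subalgebra.sub_mem _ h1A (Subalgebra.mul_mem _ hz₁A (hA _))
  have hk₂ : X.Deg 0 (kEl n z₂ (m + 2)) := (Deg.one X).sub (hz₂.mul_deg (hd _))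
  have hk₂A : kEl n z₂ (m + 2) ∈ A :=
    Subalgebra.sub_mem _ h1A (Subalgebra.mul_mem _ hz₂A (hA _))
  have ha : X.Deg (m + 1) (aEl n z₂ m) := by
    have := (hd (m + 1)).mul hk₂
    rwa [zero_add] at this
  have haA : aEl n z₂ m ∈ A := Subalgebra.mul_mem _ (hA _) hk₂A
  obtain ⟨za, hzaA, hza, ea⟩ := h.exists_inverse ha haA
  have hw : X.Deg m (wEl n z₁ z₂ za m) := by
    have h1 : X.Deg m (n ^ m * kEl n z₁ (m + 1)) := by
      have := (hd m).mul hk₁
      rwa [zero_add] at this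
    have h2 := ((Deg.one X).sub (ha.mul_coDeg hza)).mul h1
    rw [add_zero] at h2
    exact h2
  have hwA : wEl n z₁ z₂ za m ∈ A := Subalgebra.mul_mem _
    (Subalgebra.sub_mem _ h1A (Subalgebra.mul_mem _ haA hzaA))
    (Subalgebra.mul_mem _ (hA _) hk₁A)
  obtain ⟨zw, hzwA, hzw, ew⟩ := h.exists_inverse hw hwA
  have hg : X.Deg 0 (gEl n z₁ z₂ za zw m) := hk₁.mul (hzw.mul_deg hw)
  refine ⟨gEl n z₁ z₂ za zw m, Subalgebra.mul_mem _ hk₁A (Subalgebra.mul_mem _ hzwA hwA), hg,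
    gEl_mul_gEl e₁ ew, pow_mul_gEl e₁, fun x hx => gEl_smul_eq_zero_iff e₁ ea ew x hx,
    fun x hx => ?_⟩
  -- over `ℂ`
  let φ : Module.End ℚ V →+* Module.End ℂ (ℂ ⊗[ℚ] V) :=
    { toFun := fun f => f.baseChange ℂ
      map_one' := baseChange_one'
      map_mul' := fun f g => LinearMap.baseChange_mul f g
      map_zero' := LinearMap.baseChange_zero
      map_add' := fun f g => LinearMap.baseChange_add f g }
  have hφ : ∀ f, f.baseChange ℂ = φ f := fun f => rfl
  have hk : ∀ z k, φ (kEl n z k) = kEl (φ n) (φ z) k := by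
    intro z k
    unfold kEl
    rw [map_sub, map_one, map_mul, map_pow]
  have hφa : φ (aEl n z₂ m) = aEl (φ n) (φ z₂) m := by
    unfold aEl
    rw [map_mul, map_pow, hk]
  have hφw : φ (wEl n z₁ z₂ za m) = wEl (φ n) (φ z₁) (φ z₂) (φ za) m := by
    unfold wEl
    rw [map_mul, map_mul, map_sub, map_one, map_mul, map_pow, hk, hφa]
  have hφg : φ (gEl n z₁ z₂ za zw m) = gEl (φ n) (φ z₁) (φ z₂) (φ za) (φ zw) m := by
    unfold gEl
    rw [map_mul, map_mul, hk, hφw]
  rw [hφ, hφg, hφ]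
  refine gEl_smul_eq_zero_iff (R := Module.End ℂ (ℂ ⊗[ℚ] V)) ?_ ?_ ?_ x hx
  · rw [← map_pow, ← map_mul, ← map_mul, e₁]
  · rw [← hφa, ← map_mul, ← map_mul, ea]
  · rw [← hφw, ← map_mul, ← map_mul, ew]

/-- In a regular algebra a finite family generates a right ideal with an idempotent left unit. -/
theorem exists_unit {R : Type*} [Ring R] (hreg : ∀ x : R, ∃ z : R, x * z * x = x) {ι : Type*}
    (s : Finset ι) (σ : ι → R) :
    ∃ (e : R) (a : ι → R), e = ∑ i ∈ s, σ i * a i ∧ e * e = e ∧ ∀ i ∈ s, e * σ i = σ i := by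
  classical
  induction s using Finset.induction_on with
  | empty => exact ⟨0, 0, by simp, by simp, by simp⟩
  | insert k s hk ih =>
    obtain ⟨e, a, he, hee, hes⟩ := ih
    obtain ⟨w, hw⟩ := hreg ((1 - e) * σ k)
    set y : R := (1 - e) * σ k with hy
    have hey : e * y = 0 := by rw [hy, ← mul_assoc, mul_sub, mul_one, hee, sub_self, zero_mul]
    set f : R := y * w * (1 - e) with hf
    have hfy : f * σ k = y := by rw [hf, mul_assoc, ← hy, hw]
    have hef : e * f = 0 := by rw [hf, ← mul_assoc, ← mul_assoc, hey, zero_mul, zero_mul]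
    have hfe : f * e = 0 := by rw [hf, mul_assoc, sub_mul, one_mul, hee, sub_self, mul_zero]
    have hff : f * f = f := by
      have h1 : (1 - e) * f = f := by rw [sub_mul, one_mul, hef, sub_zero]
      have h2 : (1 - e) * y = y := by rw [sub_mul, one_mul, hey, sub_zero]
      calc f * f = y * w * ((1 - e) * y) * w * (1 - e) := by
            rw [hf]; simp only [mul_assoc]
        _ = (y * w * y) * w * (1 - e) := by rw [h2]
        _ = f := by rw [hw, hf]
    refine ⟨e + f, fun i => if i = k then w * (1 - e) else a i - a i * (σ k * (w * (1 - e))),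
      ?_, ?_, ?_⟩
    · rw [Finset.sum_insert hk]
      dsimp only
      rw [if_pos rfl]
      have h1 : ∀ i ∈ s, σ i * (if i = k then w * (1 - e) else
          a i - a i * (σ k * (w * (1 - e)))) =
          σ i * a i - σ i * a i * (σ k * (w * (1 - e))) := by
        intro i hi
        have hik : i ≠ k := fun h' => hk (h' ▸ hi)
        rw [if_neg hik, mul_sub, ← mul_assoc]
      rw [Finset.sum_congr rfl h1, Finset.sum_sub_distrib, ← Finset.sum_mul, ← he, hf, hy]
      noncomm_ring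
    · rw [add_mul, mul_add, mul_add, hee, hef, hfe, hff, add_zero, zero_add]
    · intro i hi
      rw [Finset.mem_insert] at hi
      rcases hi with rfl | hi
      · rw [add_mul, hfy, hy, sub_mul, one_mul]
        abel
      · rw [add_mul, hes i hi, ← hes i hi, ← mul_assoc f, hfe, zero_mul, add_zero]

end Reg

end Pool.Agent.Lib.OrlovRel
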