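import Pool.Agent.Lib.OrlovNef.Zero
import Pool.Agent.Lib.OrlovChow.Restrict

/-!
# Rings of motivated endomorphisms of `H^*(X) × H^*(X')`
-/

set_option autoImplicit false

open scoped TensorProduct ComplexOrder

namespace Pool.Agent.Lib.OrlovRel

open Pool.Agent.Lib.OrlovSig Pool.Agent.Lib.OrlovNef Pool.Agent.Lib.OrlovChow HL

section Blocks

variable {V V' : Type*} [AddCommGroup V] [Module ℚ V] [AddCommGroup V'] [Module ℚ V']

/-- The endomorphism of the product given by an endomorphism of the first factor. -/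
def b11 (V' : Type*) [AddCommGroup V'] [Module ℚ V'] (f : V →ₗ[ℚ] V) : Module.End ℚ (V × V') :=
  LinearMap.inl ℚ V V' ∘ₗ f ∘ₗ LinearMap.fst ℚ V V'

/-- The endomorphism of the product given by a map from the second factor to the first one. -/
def b12 (f : V' →ₗ[ℚ] V) : Module.End ℚ (V × V') :=
  LinearMap.inl ℚ V V' ∘ₗ f ∘ₗ LinearMap.snd ℚ V V'

/-- The endomorphism of the product given by a map from the first factor to the second one. -/
def b21 (f : V →ₗ[ℚ] V') : Module.End ℚ (V × V') :=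
  LinearMap.inr ℚ V V' ∘ₗ f ∘ₗ LinearMap.fst ℚ V V'

/-- The endomorphism of the product given by an endomorphism of the second factor. -/
def b22 (V : Type*) [AddCommGroup V] [Module ℚ V] (f : V' →ₗ[ℚ] V') : Module.End ℚ (V × V') :=
  LinearMap.inr ℚ V V' ∘ₗ f ∘ₗ LinearMap.snd ℚ V V'

theorem b11_apply (f : V →ₗ[ℚ] V) (x : V × V') : b11 V' f x = (f x.1, 0) := rfl

theorem b12_apply (f : V' →ₗ[ℚ] V) (x : V × V') : b12 f x = (f x.2, 0) := rfl

theorem b21_apply (f : V →ₗ[ℚ] V') (x : V × V') : b21 f x = (0, f x.1) := rfl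

theorem b22_apply (f : V' →ₗ[ℚ] V') (x : V × V') : b22 V f x = (0, f x.2) := rfl

theorem b11_mul_b11 (f g : V →ₗ[ℚ] V) : b11 V' f * b11 V' g = b11 V' (f ∘ₗ g) := rfl

theorem b11_mul_b12 (f : V →ₗ[ℚ] V) (g : V' →ₗ[ℚ] V) : b11 V' f * b12 g = b12 (f ∘ₗ g) := rfl

theorem b12_mul_b21 (f : V' →ₗ[ℚ] V) (g : V →ₗ[ℚ] V') : b12 f * b21 g = b11 V' (f ∘ₗ g) := rfl

theorem b12_mul_b22 (f : V' →ₗ[ℚ] V) (g : V' →ₗ[ℚ] V') : b12 f * b22 V g = b12 (f ∘ₗ g) := rfl

theorem b21_mul_b11 (f : V →ₗ[ℚ] V') (g : V →ₗ[ℚ] V) : b21 f * b11 V' g = b21 (f ∘ₗ g) := rfl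

theorem b21_mul_b12 (f : V →ₗ[ℚ] V') (g : V' →ₗ[ℚ] V) : b21 f * b12 g = b22 V (f ∘ₗ g) := rfl

theorem b22_mul_b21 (f : V' →ₗ[ℚ] V') (g : V →ₗ[ℚ] V') : b22 V f * b21 g = b21 (f ∘ₗ g) := rfl

theorem b22_mul_b22 (f g : V' →ₗ[ℚ] V') : b22 V f * b22 V g = b22 V (f ∘ₗ g) := rfl

theorem b11_mul_b22 (f : V →ₗ[ℚ] V) (g : V' →ₗ[ℚ] V') : b11 V' f * b22 V g = 0 := by
  refine LinearMap.ext (fun x => ?_)
  rw [Module.End.mul_apply, b22_apply, b11_apply, map_zero]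
  rfl

theorem b22_mul_b11 (f : V →ₗ[ℚ] V) (g : V' →ₗ[ℚ] V') : b22 V g * b11 V' f = 0 := by
  refine LinearMap.ext (fun x => ?_)
  rw [Module.End.mul_apply, b11_apply, b22_apply, map_zero]
  rfl

theorem b11_add (f g : V →ₗ[ℚ] V) : b11 V' (f + g) = b11 V' f + b11 V' g := by
  refine LinearMap.ext (fun x => ?_)
  rw [LinearMap.add_apply, b11_apply, b11_apply, b11_apply, LinearMap.add_apply, Prod.mk_add_mk,
    add_zero]

theorem b22_add (f g : V' →ₗ[ℚ] V') : b22 V (f + g) = b22 V f + b22 V g := by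
  refine LinearMap.ext (fun x => ?_)
  rw [LinearMap.add_apply, b22_apply, b22_apply, b22_apply, LinearMap.add_apply, Prod.mk_add_mk,
    add_zero]

theorem b21_add (f g : V →ₗ[ℚ] V') : b21 (f + g) = b21 f + b21 g := by
  refine LinearMap.ext (fun x => ?_)
  rw [LinearMap.add_apply, b21_apply, b21_apply, b21_apply, LinearMap.add_apply, Prod.mk_add_mk,
    add_zero]

theorem b12_add (f g : V' →ₗ[ℚ] V) : b12 (f + g) = b12 f + b12 g := by
  refine LinearMap.ext (fun x => ?_)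
  rw [LinearMap.add_apply, b12_apply, b12_apply, b12_apply, LinearMap.add_apply, Prod.mk_add_mk,
    add_zero]

theorem b11_smul (c : ℚ) (f : V →ₗ[ℚ] V) : b11 V' (c • f) = c • b11 V' f := by
  refine LinearMap.ext (fun x => ?_)
  rw [LinearMap.smul_apply, b11_apply, b11_apply, LinearMap.smul_apply, Prod.smul_mk, smul_zero]

theorem b22_smul (c : ℚ) (f : V' →ₗ[ℚ] V') : b22 V (c • f) = c • b22 V f := by
  refine LinearMap.ext (fun x => ?_)
  rw [LinearMap.smul_apply, b22_apply, b22_apply, LinearMap.smul_apply, Prod.smul_mk, smul_zero]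

theorem b21_smul (c : ℚ) (f : V →ₗ[ℚ] V') : b21 (c • f) = c • b21 f := by
  refine LinearMap.ext (fun x => ?_)
  rw [LinearMap.smul_apply, b21_apply, b21_apply, LinearMap.smul_apply, Prod.smul_mk, smul_zero]

theorem b12_smul (c : ℚ) (f : V' →ₗ[ℚ] V) : b12 (c • f) = c • b12 f := by
  refine LinearMap.ext (fun x => ?_)
  rw [LinearMap.smul_apply, b12_apply, b12_apply, LinearMap.smul_apply, Prod.smul_mk, smul_zero]

theorem b11_injective {f g : V →ₗ[ℚ] V} (h : b11 V' f = b11 V' g) : f = g :=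
  LinearMap.ext (fun x => congrArg Prod.fst (LinearMap.congr_fun h (x, 0)))

theorem b22_injective {f g : V' →ₗ[ℚ] V'} (h : b22 V f = b22 V g) : f = g :=
  LinearMap.ext (fun x => congrArg Prod.snd (LinearMap.congr_fun h (0, x)))

theorem b11_pow (f : Module.End ℚ V) (k : ℕ) : b11 V' f ^ (k + 1) = b11 V' (f ^ (k + 1)) := by
  induction k with
  | zero => rw [zero_add, pow_one, pow_one]
  | succ k ih => rw [pow_succ, ih, b11_mul_b11, pow_succ f]; rfl

theorem b22_pow (f : Module.End ℚ V') (k : ℕ) : b22 V f ^ (k + 1) = b22 V (f ^ (k + 1)) := by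
  induction k with
  | zero => rw [zero_add, pow_one, pow_one]
  | succ k ih => rw [pow_succ, ih, b22_mul_b22, pow_succ f]; rfl

theorem b11_id_add_b22_id : b11 V' (LinearMap.id : V →ₗ[ℚ] V) +
    b22 V (LinearMap.id : V' →ₗ[ℚ] V') = 1 := by
  refine LinearMap.ext (fun x => ?_)
  rw [LinearMap.add_apply, b11_apply, b22_apply, Prod.mk_add_mk, add_zero, zero_add]
  rfl

theorem b11_sum {ι : Type*} (s : Finset ι) (f : ι → V →ₗ[ℚ] V) :
    b11 V' (∑ i ∈ s, f i) = ∑ i ∈ s, b11 V' (f i) := by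
  classical
  induction s using Finset.induction_on with
  | empty =>
    rw [Finset.sum_empty, Finset.sum_empty]
    rfl
  | insert a s ha ih => rw [Finset.sum_insert ha, Finset.sum_insert ha, b11_add, ih]

theorem b22_sum {ι : Type*} (s : Finset ι) (f : ι → V' →ₗ[ℚ] V') :
    b22 V (∑ i ∈ s, f i) = ∑ i ∈ s, b22 V (f i) := by
  classical
  induction s using Finset.induction_on with
  | empty =>
    rw [Finset.sum_empty, Finset.sum_empty]
    rfl
  | insert a s ha ih => rw [Finset.sum_insert ha, Finset.sum_insert ha, b22_add, ih]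

end Blocks

variable {d : ℕ} {V V' : Type*} [AddCommGroup V] [Module ℚ V] [AddCommGroup V'] [Module ℚ V']

/-- A regular ring of Hodge endomorphisms of the product which contains the operators of both
data. -/
structure Motivic (X : HL d V) (X' : HL d V') (S : Subalgebra ℚ (Module.End ℚ (V × V'))) :
    Prop where
  le : S ≤ X.blockAlg X'
  pr₁ : ∀ j, b11 V' (X.pr j) ∈ S
  pr₂ : ∀ j, b22 V (X'.pr j) ∈ S
  lef₁ : b11 V' X.lef ∈ S
  lef₂ : b22 V X'.lef ∈ S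
  can₁ : b11 V' X.can ∈ S
  can₂ : b22 V X'.can ∈ S
  reg : ∀ x ∈ S, ∃ z ∈ S, x * z * x = x

namespace Motivic

variable {X : HL d V} {X' : HL d V'} {S : Subalgebra ℚ (Module.End ℚ (V × V'))}

theorem id₁ (h : Motivic X X' S) : b11 V' (LinearMap.id : V →ₗ[ℚ] V) ∈ S := by
  rw [← X.pr_sum, b11_sum]
  exact Subalgebra.sum_mem _ (fun j _ => h.pr₁ j)

theorem id₂ (h : Motivic X X' S) : b22 V (LinearMap.id : V' →ₗ[ℚ] V') ∈ S := by
  rw [← X'.pr_sum, b22_sum]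
  exact Subalgebra.sum_mem _ (fun j _ => h.pr₂ j)

theorem mul₁ {f g : V →ₗ[ℚ] V} (hf : b11 V' f ∈ S) (hg : b11 V' g ∈ S) : b11 V' (f ∘ₗ g) ∈ S := by
  rw [← b11_mul_b11]
  exact Subalgebra.mul_mem _ hf hg

theorem mul₂ {f g : V' →ₗ[ℚ] V'} (hf : b22 V f ∈ S) (hg : b22 V g ∈ S) :
    b22 V (f ∘ₗ g) ∈ S := by
  rw [← b22_mul_b22]
  exact Subalgebra.mul_mem _ hf hg

theorem pow₁ (h : Motivic X X' S) {f : Module.End ℚ V} (hf : b11 V' f ∈ S) (k : ℕ) :
    b11 V' (f ^ k) ∈ S := by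
  rcases Nat.eq_zero_or_pos k with rfl | hk
  · rw [pow_zero]
    exact h.id₁
  · obtain ⟨n, rfl⟩ : ∃ n, k = n + 1 := ⟨k - 1, by omega⟩
    rw [← b11_pow]
    exact Subalgebra.pow_mem _ hf _

theorem pow₂ (h : Motivic X X' S) {f : Module.End ℚ V'} (hf : b22 V f ∈ S) (k : ℕ) :
    b22 V (f ^ k) ∈ S := by
  rcases Nat.eq_zero_or_pos k with rfl | hk
  · rw [pow_zero]
    exact h.id₂
  · obtain ⟨n, rfl⟩ : ∃ n, k = n + 1 := ⟨k - 1, by omega⟩
    rw [← b22_pow]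
    exact Subalgebra.pow_mem _ hf _

/-- The corner of an element of the ring. -/
theorem corner₁ (h : Motivic X X' S) {z : Module.End ℚ (V × V')} (hz : z ∈ S) :
    b11 V' (LinearMap.fst ℚ V V' ∘ₗ z ∘ₗ LinearMap.inl ℚ V V') ∈ S := by
  have e : b11 V' (LinearMap.fst ℚ V V' ∘ₗ z ∘ₗ LinearMap.inl ℚ V V') =
      b11 V' LinearMap.id * z * b11 V' LinearMap.id := rfl
  rw [e]
  exact Subalgebra.mul_mem _ (Subalgebra.mul_mem _ h.id₁ hz) h.id₁

theorem corner₂ (h : Motivic X X' S) {z : Module.End ℚ (V × V')} (hz : z ∈ S) :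
    b22 V (LinearMap.snd ℚ V V' ∘ₗ z ∘ₗ LinearMap.inr ℚ V V') ∈ S := by
  have e : b22 V (LinearMap.snd ℚ V V' ∘ₗ z ∘ₗ LinearMap.inr ℚ V V') =
      b22 V LinearMap.id * z * b22 V LinearMap.id := rfl
  rw [e]
  exact Subalgebra.mul_mem _ (Subalgebra.mul_mem _ h.id₂ hz) h.id₂

theorem corner₂₁ (h : Motivic X X' S) {z : Module.End ℚ (V × V')} (hz : z ∈ S) :
    b21 (LinearMap.snd ℚ V V' ∘ₗ z ∘ₗ LinearMap.inl ℚ V V') ∈ S := by
  have e : b21 (LinearMap.snd ℚ V V' ∘ₗ z ∘ₗ LinearMap.inl ℚ V V') =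
      b22 V LinearMap.id * z * b11 V' LinearMap.id := rfl
  rw [e]
  exact Subalgebra.mul_mem _ (Subalgebra.mul_mem _ h.id₂ hz) h.id₁

theorem corner₁₂ (h : Motivic X X' S) {z : Module.End ℚ (V × V')} (hz : z ∈ S) :
    b12 (LinearMap.fst ℚ V V' ∘ₗ z ∘ₗ LinearMap.inr ℚ V V') ∈ S := by
  have e : b12 (LinearMap.fst ℚ V V' ∘ₗ z ∘ₗ LinearMap.inr ℚ V V') =
      b11 V' LinearMap.id * z * b22 V LinearMap.id := rfl
  rw [e]
  exact Subalgebra.mul_mem _ (Subalgebra.mul_mem _ h.id₁ hz) h.id₂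

theorem reg₁ (h : Motivic X X' S) {f : Module.End ℚ V} (hf : b11 V' f ∈ S) :
    ∃ z : Module.End ℚ V, b11 V' z ∈ S ∧ f * z * f = f := by
  obtain ⟨z, hz, e⟩ := h.reg _ hf
  refine ⟨_, h.corner₁ hz, ?_⟩
  apply b11_injective (V' := V')
  exact e

theorem reg₂ (h : Motivic X X' S) {f : Module.End ℚ V'} (hf : b22 V f ∈ S) :
    ∃ z : Module.End ℚ V', b22 V z ∈ S ∧ f * z * f = f := by
  obtain ⟨z, hz, e⟩ := h.reg _ hf
  refine ⟨_, h.corner₂ hz, ?_⟩
  apply b22_injective (V := V)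
  exact e

section Hodge

variable (h : Motivic X X' S)

include h in
theorem isHodge₁ {f : V →ₗ[ℚ] V} (hf : b11 V' f ∈ S) : X.IsHodge X f :=
  (mem_blockAlg.1 (h.le hf)).1

include h in
theorem isHodge₂ {f : V' →ₗ[ℚ] V'} (hf : b22 V f ∈ S) : X'.IsHodge X' f :=
  (mem_blockAlg.1 (h.le hf)).2.2.2

include h in
theorem isHodge₂₁ {f : V →ₗ[ℚ] V'} (hf : b21 f ∈ S) : X.IsHodge X' f :=
  (mem_blockAlg.1 (h.le hf)).2.1

include h in
theorem isHodge₁₂ {f : V' →ₗ[ℚ] V} (hf : b12 f ∈ S) : X'.IsHodge X f :=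
  (mem_blockAlg.1 (h.le hf)).2.2.1

end Hodge

section Fin

variable [FiniteDimensional ℚ V] [FiniteDimensional ℚ V']

omit [FiniteDimensional ℚ V'] in
/-- A generalised inverse of the Lefschetz operator gives `θ`. -/
theorem theta_eq {U : Type*} [AddCommGroup U] [Module ℚ U] [FiniteDimensional ℚ U] (Y : HL d U)
    (j : ℕ) (hj : j ≤ d) (z : Module.End ℚ U)
    (hz : (Y.lef ^ (d - j) * Y.pr j) * z * (Y.lef ^ (d - j) * Y.pr j) =
      Y.lef ^ (d - j) * Y.pr j) : Y.pr j * z * Y.pr (2 * d - j) = Y.theta j := by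
  obtain ⟨-, h1, h2, h3, h4⟩ := Y.theta_spec j hj
  have h5 : Y.pr j * z * (Y.lef ^ (d - j) * Y.pr j) = Y.pr j := by
    calc Y.pr j * z * (Y.lef ^ (d - j) * Y.pr j)
        = (Y.theta j * (Y.lef ^ (d - j) * Y.pr j)) * z * (Y.lef ^ (d - j) * Y.pr j) := by rw [h1]
      _ = Y.theta j * ((Y.lef ^ (d - j) * Y.pr j) * z * (Y.lef ^ (d - j) * Y.pr j)) := by
          simp only [mul_assoc]
      _ = Y.pr j := by rw [hz, h1]
  calc Y.pr j * z * Y.pr (2 * d - j) = Y.pr j * z * (Y.lef ^ (d - j) * (Y.pr j * Y.theta j)) := by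
        rw [h3, h2]
    _ = Y.pr j * z * (Y.lef ^ (d - j) * Y.pr j) * Y.theta j := by simp only [mul_assoc]
    _ = Y.theta j := by rw [h5, h3]

theorem theta₁ (h : Motivic X X' S) (j : ℕ) : b11 V' (X.theta j) ∈ S := by
  by_cases hj : j ≤ d
  · obtain ⟨z, hz, e⟩ := h.reg₁ (f := X.lef ^ (d - j) * X.pr j) (mul₁ (h.pow₁ h.lef₁ _) (h.pr₁ j))
    rw [← theta_eq X j hj z e]
    exact mul₁ (mul₁ (h.pr₁ j) hz) (h.pr₁ _)
  · have h2 : X.theta j = 0 := by
      unfold HL.theta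
      rw [dif_neg hj]
    rw [h2]
    exact Subalgebra.zero_mem _

theorem theta₂ (h : Motivic X X' S) (j : ℕ) : b22 V (X'.theta j) ∈ S := by
  by_cases hj : j ≤ d
  · obtain ⟨z, hz, e⟩ := h.reg₂ (f := X'.lef ^ (d - j) * X'.pr j)
      (mul₂ (h.pow₂ h.lef₂ _) (h.pr₂ j))
    rw [← theta_eq X' j hj z e]
    exact mul₂ (mul₂ (h.pr₂ j) hz) (h.pr₂ _)
  · have h2 : X'.theta j = 0 := by
      unfold HL.theta
      rw [dif_neg hj]
    rw [h2]
    exact Subalgebra.zero_mem _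

end Fin

end Motivic

end Pool.Agent.Lib.OrlovRel
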