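import Pool.Agent.Lib.OrlovRel.Corner
import Pool.Agent.Lib.OrlovRel.Defs

/-!
# Isomorphisms of primitive parts by maps of the ring
-/

set_option autoImplicit false

open scoped TensorProduct ComplexOrder

namespace Pool.Agent.Lib.OrlovRel

open Pool.Agent.Lib.OrlovSig Pool.Agent.Lib.OrlovNef Pool.Agent.Lib.OrlovChow HL

variable {d : ℕ} {V V' : Type*} [AddCommGroup V] [Module ℚ V] [AddCommGroup V'] [Module ℚ V']

/-- `f` and `g` induce mutually inverse isomorphisms between the parts of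
`P_m = ker N ^ (m + 1) / (ker N ^ m + im N)` of `X` and `X'` in the degrees of `s`. -/
def PrimMaps {X : HL d V} {X' : HL d V'} (P : X.Nef) (P' : X'.Nef) (m : ℕ) (s : Finset ℕ)
    (f : V →ₗ[ℚ] V') (g : V' →ₗ[ℚ] V) : Prop :=
  (∀ x, (P.op ^ (m + 1)) x = 0 → (P'.op ^ (m + 1)) (f x) = 0 ∧
    (Low P.op m x → Low P'.op m (f x)) ∧ Low P.op m (g (f x) - X.prOn s x)) ∧
  (∀ y, (P'.op ^ (m + 1)) y = 0 → (P.op ^ (m + 1)) (g y) = 0 ∧
    (Low P'.op m y → Low P.op m (g y)) ∧ Low P'.op m (f (g y) - X'.prOn s y))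

/-- Isomorphism of the parts of `P_m` and `P'_m` in the degrees of `s` by maps of the ring. -/
def SPrim {X : HL d V} {X' : HL d V'} (S : Subalgebra ℚ (Module.End ℚ (V × V'))) (P : X.Nef)
    (P' : X'.Nef) (m : ℕ) (s : Finset ℕ) : Prop :=
  ∃ (f : V →ₗ[ℚ] V') (g : V' →ₗ[ℚ] V), b21 f ∈ S ∧ b12 g ∈ S ∧ PrimMaps P P' m s f g

section

variable {X : HL d V} {X' : HL d V'} {P : X.Nef} {P' : X'.Nef} {m : ℕ} {g : Module.End ℚ V}
  {g' : Module.End ℚ V'} {S : Subalgebra ℚ (Module.End ℚ (V × V'))} {hg : IsProj P m g}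
  {hg' : IsProj P' m g'} {hgS : b11 V' g ∈ S} {hgS' : b22 V g' ∈ S}
  [FiniteDimensional ℚ V] [FiniteDimensional ℚ V']

omit [FiniteDimensional ℚ V] [FiniteDimensional ℚ V'] in
/-- From maps of the ring of the primitive parts to `SPrim`. -/
theorem sprim_of_maps (s : Finset ℕ)
    (F : LinearMap.range g →ₗ[ℚ] LinearMap.range g')
    (G : LinearMap.range g' →ₗ[ℚ] LinearMap.range g)
    (hF : b21 F ∈ cornerAlg S hg hg' hgS hgS') (hG : b12 G ∈ cornerAlg S hg hg' hgS hgS')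
    (hGF : ∀ x, inc g (G (F x)) = X.prOn s (inc g x))
    (hFG : ∀ y, inc g' (F (G y)) = X'.prOn s (inc g' y)) : SPrim S P P' m s := by
  refine ⟨inc g' ∘ₗ F ∘ₗ prj g, inc g ∘ₗ G ∘ₗ prj g', mem_corner₂₁.1 hF, mem_corner₁₂.1 hG,
    ?_, ?_⟩
  · intro x hx
    simp only [LinearMap.comp_apply]
    refine ⟨hg'.kill_inc _, fun hl => ?_, ?_⟩
    · have h1 : prj g x = 0 := Subtype.ext ((hg.low x hx).2 hl)
      rw [h1, map_zero, map_zero]
      exact Low.zero _ _
    · rw [hg'.prj_inc, hGF, inc_prj]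
      exact hg.low_prOn s hx
  · intro y hy
    simp only [LinearMap.comp_apply]
    refine ⟨hg.kill_inc _, fun hl => ?_, ?_⟩
    · have h1 : prj g' y = 0 := Subtype.ext ((hg'.low y hy).2 hl)
      rw [h1, map_zero, map_zero]
      exact Low.zero _ _
    · rw [hg.prj_inc, hFG, inc_prj]
      exact hg'.low_prOn s hy

omit [FiniteDimensional ℚ V] [FiniteDimensional ℚ V'] in
/-- The induced maps of primitive parts are inverse up to `pr j`. -/
theorem PrimMaps.induced {f : V →ₗ[ℚ] V'} {k : V' →ₗ[ℚ] V} {j : ℕ}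
    (hi : PrimMaps P P' m {j} f k) (h : IsProj P m g) (h' : IsProj P' m g') :
    (∀ x, indMap g' g k (indMap g g' f x) = ind g (X.pr j) x) ∧
      ∀ y, indMap g g' f (indMap g' g k y) = ind g' (X'.pr j) y := by
  obtain ⟨h1, h2⟩ := hi
  refine ⟨fun x => ?_, fun y => ?_⟩
  · apply Subtype.ext
    have e : inc g (indMap g' g k (indMap g g' f x)) = X.pr j (inc g x) := by
      rw [inc_indMap, inc_indMap]
      obtain ⟨a1, -, a3⟩ := h1 (inc g x) (h.kill_inc x)
      have a4 : g (k (f (inc g x) - g' (f (inc g x)))) = 0 := by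
        have b1 := h2 (f (inc g x) - g' (f (inc g x))) (by
          rw [map_sub, a1, h'.kill_apply, sub_zero])
        exact (h.low _ b1.1).2 (b1.2.1 (h'.low_sub a1))
      have a5 : g (k (f (inc g x)) - X.prOn {j} (inc g x)) = 0 := by
        refine (h.low _ ?_).2 a3
        rw [map_sub, (h2 _ a1).1, P.op_pow_prOn _ _ (h.kill_inc x), sub_zero]
      have a6 : X.prOn {j} (inc g x) = X.pr j (inc g x) := by
        unfold prOn
        rw [Finset.sum_singleton]
      rw [map_sub, map_sub, sub_eq_zero] at a4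
      rw [map_sub, sub_eq_zero, a6, h.pr_g, h.g_inc] at a5
      rw [← a4, a5]
    exact e.trans (h.inc_pr j x).symm
  · apply Subtype.ext
    have e : inc g' (indMap g g' f (indMap g' g k y)) = X'.pr j (inc g' y) := by
      rw [inc_indMap, inc_indMap]
      obtain ⟨a1, -, a3⟩ := h2 (inc g' y) (h'.kill_inc y)
      have a4 : g' (f (k (inc g' y) - g (k (inc g' y)))) = 0 := by
        have b1 := h1 (k (inc g' y) - g (k (inc g' y))) (by
          rw [map_sub, a1, h.kill_apply, sub_zero])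
        exact (h'.low _ b1.1).2 (b1.2.1 (h.low_sub a1))
      have a5 : g' (f (k (inc g' y)) - X'.prOn {j} (inc g' y)) = 0 := by
        refine (h'.low _ ?_).2 a3
        rw [map_sub, (h1 _ a1).1, P'.op_pow_prOn _ _ (h'.kill_inc y), sub_zero]
      have a6 : X'.prOn {j} (inc g' y) = X'.pr j (inc g' y) := by
        unfold prOn
        rw [Finset.sum_singleton]
      rw [map_sub, map_sub, sub_eq_zero] at a4
      rw [map_sub, sub_eq_zero, a6, h'.pr_g, h'.g_inc] at a5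
      rw [← a4, a5]
    exact e.trans (h'.inc_pr j y).symm

/-- From `SPrim` in one degree to equivalent projectors. -/
theorem SPrim.mvn (h : Motivic X X' S) (hm : m ≤ d) (hg : IsProj P m g) (hg' : IsProj P' m g')
    (hgS : b11 V' g ∈ S) (hgS' : b22 V g' ∈ S) {j : ℕ} (hi : SPrim S P P' m {j}) :
    MvN ((h.corner hm hg hg' hgS hgS').Q₁.π j) ((h.corner hm hg hg' hgS hgS').Q₂.π j) := by
  obtain ⟨f, k, hf, hk, hfk⟩ := hi
  obtain ⟨e1, e2⟩ := hfk.induced hg hg'
  exact Motivic.mvn_of_maps (Motivic.coe_Q₁_π _ j) (Motivic.coe_Q₂_π _ j)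
    ((primHL hg hm).pr_self j) ((primHL hg' hm).pr_self j) (indMap g g' f) (indMap g' g k)
    (mem_corner₂₁.2 (indMap_mem₂₁ hgS hgS' hf)) (mem_corner₁₂.2 (indMap_mem₁₂ hgS hgS' hk))
    (LinearMap.ext e1) (LinearMap.ext e2)

/-- From equivalent projectors to `SPrim`. -/
theorem sprim_of_mvn (h : Motivic X X' S) (hm : m ≤ d) {j : ℕ}
    (hi : MvN ((h.corner hm hg hg' hgS hgS').Q₁.π j) ((h.corner hm hg hg' hgS hgS').Q₂.π j)) :
    SPrim S P P' m {j} := by
  obtain ⟨f, k, hf, hk, hkf, hfk, -⟩ := Motivic.maps_of_mvn (Motivic.coe_Q₁_π _ j)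
    (Motivic.coe_Q₂_π _ j) hi
  refine sprim_of_maps {j} f k hf hk (fun x => ?_) (fun y => ?_)
  · unfold prOn
    rw [Finset.sum_singleton, ← hg.inc_pr]
    exact congrArg (inc g) (LinearMap.congr_fun hkf x)
  · unfold prOn
    rw [Finset.sum_singleton, ← hg'.inc_pr]
    exact congrArg (inc g') (LinearMap.congr_fun hfk y)

/-- From equivalent blocks to `SPrim`. -/
theorem sprim_of_block (h : Motivic X X' S) (hm : m ≤ d) (a : ℕ)
    (hi : MvN ((h.corner hm hg hg' hgS hgS').Q₁.B a) ((h.corner hm hg hg' hgS hgS').Q₂.B a)) :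
    SPrim S P P' m (blockSet (d - m) a) := by
  obtain ⟨f, k, hf, hk, hkf, hfk, -⟩ := Motivic.maps_of_mvn (Motivic.coe_Q₁_B _ a)
    (Motivic.coe_Q₂_B _ a) hi
  refine sprim_of_maps _ f k hf hk (fun x => ?_) (fun y => ?_)
  · rw [← inc_prBlock hg hm]
    exact congrArg (inc g) (LinearMap.congr_fun hkf x)
  · rw [← inc_prBlock hg' hm]
    exact congrArg (inc g') (LinearMap.congr_fun hfk y)

end

theorem NoPrim.induced {X : HL d V} {P : X.Nef} {m j : ℕ} (h : NoPrim P m j)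
    {g : Module.End ℚ V} (hg : IsProj P m g) [FiniteDimensional ℚ V] (hm : m ≤ d)
    (x : LinearMap.range g) (hx : (primHL hg hm).pr j x = x)
    (hx0 : ((primHL hg hm).lef ^ (d - m - j + 1)) x = 0) : x = 0 := by
  have h1 : X.pr j (inc g x) = inc g x := by
    rw [← hg.inc_pr]
    exact congrArg (inc g) hx
  have h2 := hg.inc_ind_pow (f := X.lef) P.op_lef (d - m - j + 1) x
  have h3 : ((ind g X.lef) ^ (d - m - j + 1)) x = 0 := hx0
  rw [h3, map_zero] at h2
  have h4 := h (inc g x) h1 (hg.kill_inc x) ((hg.low _ h2.2).1 h2.1.symm)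
  apply Subtype.ext
  have h5 := (hg.low _ (hg.kill_inc x)).2 h4
  rw [hg.g_inc] at h5
  exact h5

/-- The family of projectors of the ring. -/
structure FamS {X : HL d V} {X' : HL d V'} (S : Subalgebra ℚ (Module.End ℚ (V × V')))
    (P : X.Nef) (P' : X'.Nef) (g : ℕ → Module.End ℚ V) (g' : ℕ → Module.End ℚ V') : Prop where
  proj : ∀ m, IsProj P m (g m)
  proj' : ∀ m, IsProj P' m (g' m)
  mem : ∀ m, b11 V' (g m) ∈ S
  mem' : ∀ m, b22 V (g' m) ∈ S

theorem Motivic.exists_fam {X : HL d V} {X' : HL d V'}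
    {S : Subalgebra ℚ (Module.End ℚ (V × V'))} (h : Motivic X X' S) (P : X.Nef) (P' : X'.Nef)
    (hP : b11 V' P.op ∈ S) (hP' : b22 V P'.op ∈ S) :
    ∃ (g : ℕ → Module.End ℚ V) (g' : ℕ → Module.End ℚ V'), FamS S P P' g g' := by
  choose g hg1 hg2 using fun m => h.reg_alg₁.exists_isProj P hP m
  choose g' hg1' hg2' using fun m => h.reg_alg₂.exists_isProj P' hP' m
  exact ⟨g, g', hg2, hg2', hg1, hg1'⟩

section Main

variable {X : HL d V} {X' : HL d V'} {S : Subalgebra ℚ (Module.End ℚ (V × V'))}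
  [FiniteDimensional ℚ V] [FiniteDimensional ℚ V']

/-- The block theorem on the primitive parts. -/
theorem Motivic.prim_block (h : Motivic X X' S) (P : X.Nef) (P' : X'.Nef)
    (hP : b11 V' P.op ∈ S) (hP' : b22 V P'.op ∈ S) (u : V ≃ₗ[ℚ] V') (hu : b21 u.toLinearMap ∈ S)
    (hu' : b12 u.symm.toLinearMap ∈ S) (hmk : ∀ x y, X'.mukai (u x) (u y) = X.mukai x y)
    (hN : ∀ x, u (P.op x) = P'.op (u x)) (m : ℕ) (hm : m ≤ d) (a : ℕ) :
    SPrim S P P' m (blockSet (d - m) a) := by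
  obtain ⟨g, g', hf⟩ := h.exists_fam P P' hP hP'
  obtain ⟨i1, i2⟩ := indEquiv_mem (hf.proj m) (hf.proj' m) (hf.mem m) (hf.mem' m) u hN hu hu'
  exact sprim_of_block h hm a (((h.corner hm (hf.proj m) (hf.proj' m) (hf.mem m)
    (hf.mem' m)).core (indEquiv (hf.proj m) (hf.proj' m) u hN) i1 i2
    (indEquiv_mukai (hf.proj m) (hf.proj' m) hm u hN hmk)).1 a)

/-- Cancellation on the primitive parts. -/
theorem Motivic.prim_cancel (h : Motivic X X' S) (P : X.Nef) (P' : X'.Nef)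
    (hP : b11 V' P.op ∈ S) (hP' : b22 V P'.op ∈ S) (u : V ≃ₗ[ℚ] V') (hu : b21 u.toLinearMap ∈ S)
    (hu' : b12 u.symm.toLinearMap ∈ S) (hmk : ∀ x y, X'.mukai (u x) (u y) = X.mukai x y)
    (hN : ∀ x, u (P.op x) = P'.op (u x)) (m j : ℕ) (hmj : m + j ≤ d)
    (hi : ∀ i, m + i ≤ d → i ≠ j → block (d - m) i = block (d - m) j → SPrim S P P' m {i}) :
    SPrim S P P' m {j} ∧ SPrim S P P' m {2 * (d - m) - j} := by
  obtain ⟨g, g', hf⟩ := h.exists_fam P P' hP hP'
  have hm : m ≤ d := by omega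
  obtain ⟨i1, i2⟩ := indEquiv_mem (hf.proj m) (hf.proj' m) (hf.mem m) (hf.mem' m) u hN hu hu'
  obtain ⟨-, c2, c3⟩ := (h.corner hm (hf.proj m) (hf.proj' m) (hf.mem m)
    (hf.mem' m)).core (indEquiv (hf.proj m) (hf.proj' m) u hN) i1 i2
    (indEquiv_mukai (hf.proj m) (hf.proj' m) hm u hN hmk)
  have h1 := c3 j (by omega) (fun i hid hij hb => (hi i (by omega) hij hb).mvn h hm (hf.proj m)
    (hf.proj' m) (hf.mem m) (hf.mem' m))
  exact ⟨sprim_of_mvn h hm h1, sprim_of_mvn h hm (c2 j (by omega) h1)⟩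

/-- The criterion for the equivalence of all graded pieces of a primitive part. -/
theorem Motivic.prim_all (h : Motivic X X' S) {P : X.Nef} {P' : X'.Nef}
    {g : ℕ → Module.End ℚ V} {g' : ℕ → Module.End ℚ V'} (hf : FamS S P P' g g')
    (u : V ≃ₗ[ℚ] V') (hu : b21 u.toLinearMap ∈ S)
    (hu' : b12 u.symm.toLinearMap ∈ S) (hmk : ∀ x y, X'.mukai (u x) (u y) = X.mukai x y)
    (hN : ∀ x, u (P.op x) = P'.op (u x)) (m : ℕ) (hm : m ≤ d) (K : Set ℕ)
    (hK : ∀ i ∈ K, SPrim S P P' m {i})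
    (hh : ∀ e < 2, (∀ i j, m + i ≤ d → m + j ≤ d → i % 2 = e → j % 2 = e →
        block (d - m) i = block (d - m) j → i ∉ K → j ∉ K → i = j) ∨
      (e ∈ K ∧ ∀ j, 1 < j → m + j < d → j % 2 = e → NoPrim P m j)) :
    ∀ j ≤ 2 * (d - m), MvN ((h.corner hm (hf.proj m) (hf.proj' m) (hf.mem m)
      (hf.mem' m)).Q₁.π j) ((h.corner hm (hf.proj m) (hf.proj' m) (hf.mem m)
      (hf.mem' m)).Q₂.π j) := by
  obtain ⟨i1, i2⟩ := indEquiv_mem (hf.proj m) (hf.proj' m) (hf.mem m) (hf.mem' m) u hN hu hu'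
  refine (h.corner hm (hf.proj m) (hf.proj' m) (hf.mem m) (hf.mem' m)).core3
    (indEquiv (hf.proj m) (hf.proj' m) u hN) i1 i2
    (indEquiv_mukai (hf.proj m) (hf.proj' m) hm u hN hmk) K
    (fun i hi => (hK i hi).mvn h hm (hf.proj m) (hf.proj' m) (hf.mem m) (hf.mem' m))
    (fun e he => ?_)
  rcases hh e he with h1 | ⟨h1, h2⟩
  · refine Or.inl (fun i hi j hj hie hje hb hiK hjK => ?_)
    exact h1 i j (by omega) (by omega) hie hje hb hiK hjK
  · refine Or.inr ⟨h1, fun j hj1 hj2 hje x hx hx0 => ?_⟩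
    exact (h2 j hj1 (by omega) hje).induced (hf.proj m) hm x hx hx0

end Main

end Pool.Agent.Lib.OrlovRel
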